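import Pool.Agent.Work.MP_26c40d_31.Statement

/-!
# Swap-trivial direct summands of tensor squares: the notions used in the statement
-/

set_option autoImplicit false

namespace Pool.SqSplit

open Module TensorProduct Pool.Benson

section
variable {k : Type} [Field k] {G : Type} [Group G] {V : Type} [AddCommGroup V] [Module k V]
variable {V' : Type} [AddCommGroup V'] [Module k V']

/-- The involution of `V ⊗ V'` given by a linear isomorphism `θ : V ≃ V'`: it sends
`x ⊗ θ y` to `y ⊗ θ x`. -/
noncomputable def swap (θ : V ≃ₗ[k] V') : TensorProduct k V V' ≃ₗ[k] TensorProduct k V V' :=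
  (TensorProduct.congr (LinearEquiv.refl k V) θ).symm.trans
    ((TensorProduct.comm k V V).trans (TensorProduct.congr (LinearEquiv.refl k V) θ))

/-- The representation `V ⊗ V'` of `G × Z/2`, where `Z/2` acts by the involution `swap θ`, has a
nonzero direct summand on which `Z/2` acts trivially. -/
def HasSwapTrivialSummand (ρ : Representation k G V) (ρ' : Representation k G V')
    (θ : V ≃ₗ[k] V') : Prop :=
  ∃ A B : Submodule k (TensorProduct k V V'), IsCompl A B ∧ A ≠ ⊥ ∧
    IsInv (ρ.tprod ρ') A ∧ IsInv (ρ.tprod ρ') B ∧ (∀ t ∈ A, swap θ t = t) ∧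
    ∀ t ∈ B, swap θ t ∈ B

/-- There are a representation `W` with `dim W = dim V` and an equivariant symmetric bilinear map
`β : V × V → W` with `β (x, x) ≠ 0` for all `x ≠ 0`. (Over a perfect field of characteristic two
this means that the map `x ↦ x²` from the Frobenius twist of `V` to the symmetric square of `V` has
an equivariant linear left inverse.) -/
def HasAnisotropicSquare (ρ : Representation k G V) : Prop :=
  ∃ (W : Type) (_ : AddCommGroup W) (_ : Module k W) (σ : Representation k G W)
    (β : V →ₗ[k] V →ₗ[k] W), finrank k W = finrank k V ∧ (∀ x y, β x y = β y x) ∧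
    (∀ g x y, β (ρ g x) (ρ g y) = σ g (β x y)) ∧ ∀ x, β x x = 0 → x = 0

end

end Pool.SqSplit
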