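import Pool.Agent.Work.MP_26c40d_sq.Main
import Pool.Agent.Work.MP_26c40d_sq.Statement

/-!
# The squaring map does not split: the final form
-/

set_option autoImplicit false

namespace Pool.SqSplit

open Module TensorProduct Pool.Benson

section

variable {k : Type} [Field k] {G : Type} [Group G] {V : Type} [AddCommGroup V] [Module k V]
variable {V' : Type} [AddCommGroup V'] [Module k V']

theorem swap_congr (θ : V ≃ₗ[k] V') (t : TensorProduct k V V) :
    swap θ (TensorProduct.congr (LinearEquiv.refl k V) θ t) =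
      TensorProduct.congr (LinearEquiv.refl k V) θ (TensorProduct.comm k V V t) := by
  simp only [swap, LinearEquiv.trans_apply, LinearEquiv.symm_apply_apply]

theorem swap_refl (t : TensorProduct k V V) :
    swap (LinearEquiv.refl k V) t = TensorProduct.comm k V V t := by
  have h : ∀ t : TensorProduct k V V,
      TensorProduct.congr (LinearEquiv.refl k V) (LinearEquiv.refl k V) t = t := by
    intro t
    induction t using TensorProduct.induction_on with
    | zero => rw [map_zero]
    | tmul x y => rfl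
    | add x y hx hy => rw [map_add, hx, hy]
  have h1 := swap_congr (LinearEquiv.refl k V) t
  rw [h, h] at h1
  exact h1

theorem tprod_congr (ρ : Representation k G V) (ρ' : Representation k G V') (θ : V ≃ₗ[k] V')
    (hθ : ∀ g v, θ (ρ g v) = ρ' g (θ v)) (g : G) (t : TensorProduct k V V) :
    TensorProduct.congr (LinearEquiv.refl k V) θ ((ρ.tprod ρ) g t) =
      (ρ.tprod ρ') g (TensorProduct.congr (LinearEquiv.refl k V) θ t) := by
  induction t using TensorProduct.induction_on with
  | zero => simp only [map_zero]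
  | tmul x y =>
    show (ρ g x) ⊗ₜ[k] θ (ρ g y) = (ρ g x) ⊗ₜ[k] ρ' g (θ y)
    rw [hθ]
  | add x y hx hy => rw [map_add, map_add, hx, hy, map_add, map_add]

/-- transport along an equivariant isomorphism -/
theorem transport (ρ : Representation k G V) (ρ' : Representation k G V') (θ : V ≃ₗ[k] V')
    (hθ : ∀ g v, θ (ρ g v) = ρ' g (θ v)) (h : HasSwapTrivialSummand ρ ρ' θ) :
    HasSwapTrivialSummand ρ ρ (LinearEquiv.refl k V) := by
  obtain ⟨A, B, hc, h0, hA, hB, hsA, hsB⟩ := h
  let E := TensorProduct.congr (LinearEquiv.refl k V) θ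
  have hE : ∀ (C : Submodule k (TensorProduct k V V')) (t : TensorProduct k V V),
      t ∈ C.comap E.toLinearMap ↔ E t ∈ C := fun C t => Iff.rfl
  refine ⟨A.comap E.toLinearMap, B.comap E.toLinearMap, ?_, ?_, ?_, ?_, ?_, ?_⟩
  · rw [isCompl_iff, disjoint_iff, codisjoint_iff]
    constructor
    · rw [Submodule.eq_bot_iff]
      intro t ht
      obtain ⟨h1, h2⟩ := Submodule.mem_inf.mp ht
      have h3 : E t ∈ A ⊓ B := Submodule.mem_inf.mpr ⟨h1, h2⟩
      rw [hc.inf_eq_bot, Submodule.mem_bot] at h3
      exact (LinearEquiv.map_eq_zero_iff E).mp h3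
    · rw [eq_top_iff]
      intro t _
      have h1 : E t ∈ A ⊔ B := by rw [hc.sup_eq_top]; exact Submodule.mem_top
      obtain ⟨a, ha, b, hb, hab⟩ := Submodule.mem_sup.mp h1
      refine Submodule.mem_sup.mpr ⟨E.symm a, ?_, E.symm b, ?_, ?_⟩
      · rw [hE, LinearEquiv.apply_symm_apply]; exact ha
      · rw [hE, LinearEquiv.apply_symm_apply]; exact hb
      · rw [← map_add, hab, LinearEquiv.symm_apply_apply]
  · intro h
    apply h0
    rw [Submodule.eq_bot_iff] at h ⊢
    intro a ha
    have h1 := h (E.symm a) (by rw [hE, LinearEquiv.apply_symm_apply]; exact ha)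
    rw [← LinearEquiv.apply_symm_apply E a, h1, map_zero]
  · intro g t ht
    rw [hE] at ht ⊢
    rw [tprod_congr ρ ρ' θ hθ]
    exact hA g _ ht
  · intro g t ht
    rw [hE] at ht ⊢
    rw [tprod_congr ρ ρ' θ hθ]
    exact hB g _ ht
  · intro t ht
    rw [hE] at ht
    have h1 := hsA _ ht
    rw [swap_congr] at h1
    rw [swap_refl]
    exact E.injective h1
  · intro t ht
    rw [hE] at ht ⊢
    have h1 := hsB _ ht
    rw [swap_congr] at h1
    rw [swap_refl]
    exact h1

/-- a finite 2-group acts trivially on a line in characteristic two -/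
theorem trivial_of_finrank_one [CharP k 2] [Finite G] (hG : IsPGroup 2 G)
    (ρ : Representation k G V) (h1 : finrank k V = 1) (g : G) (v : V) : ρ g v = v := by
  obtain ⟨e, he0, he⟩ := finrank_eq_one_iff'.mp h1
  obtain ⟨c, hc⟩ := he (ρ g e)
  have hpow : ∀ m : ℕ, ρ (g ^ m) e = c ^ m • e := by
    intro m
    induction m with
    | zero => rw [pow_zero, pow_zero, map_one, one_smul]; rfl
    | succ m ih =>
      rw [pow_succ, map_mul, Module.End.mul_apply, ← hc, map_smul, ih, smul_smul, pow_succ,
        mul_comm]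
  obtain ⟨m, hm⟩ := hG g
  have h2 := hpow (2 ^ m)
  rw [hm, map_one] at h2
  have h3 : (c ^ 2 ^ m - 1) • e = 0 := by
    rw [sub_smul, one_smul, ← h2]
    exact sub_self _
  have h4 : c ^ 2 ^ m = 1 := by
    rcases smul_eq_zero.mp h3 with h | h
    · exact sub_eq_zero.mp h
    · exact absurd h he0
  have h5 : c = 1 := by
    have h6 : (c - 1) ^ 2 ^ m = 0 := by
      rw [sub_pow_char_pow, one_pow, h4, sub_self]
    exact sub_eq_zero.mp (pow_eq_zero_iff (pow_ne_zero m two_ne_zero) |>.mp h6)
  obtain ⟨a, ha⟩ := he v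
  rw [← ha, map_smul, ← hc, h5, one_smul]

theorem one_to_swap (ρ : Representation k G V) (h1 : finrank k V = 1) :
    HasSwapTrivialSummand ρ ρ (LinearEquiv.refl k V) := by
  obtain ⟨e, he0, he⟩ := finrank_eq_one_iff'.mp h1
  have hfd : FiniteDimensional k V := FiniteDimensional.of_finrank_eq_succ h1
  have hall : ∀ t : TensorProduct k V V, TensorProduct.comm k V V t = t := by
    intro t
    induction t using TensorProduct.induction_on with
    | zero => rw [map_zero]
    | tmul x y =>
      obtain ⟨a, rfl⟩ := he x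
      obtain ⟨b, rfl⟩ := he y
      rw [TensorProduct.comm_tmul, TensorProduct.smul_tmul, TensorProduct.tmul_smul,
        TensorProduct.tmul_smul, TensorProduct.smul_tmul, TensorProduct.tmul_smul,
        TensorProduct.tmul_smul, smul_comm]
    | add x y hx hy => rw [map_add, hx, hy]
  refine ⟨⊤, ⊥, isCompl_top_bot, ?_, fun g t _ => Submodule.mem_top, ?_, ?_, ?_⟩
  · intro h
    have h2 : finrank k (⊤ : Submodule k (TensorProduct k V V)) = 1 := by
      rw [finrank_top, finrank_tensorProduct, h1]
    rw [h, finrank_bot] at h2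
    exact absurd h2 (by norm_num)
  · intro g t ht
    rw [Submodule.mem_bot] at ht ⊢
    rw [ht, map_zero]
  · intro t _
    rw [swap_refl, hall]
  · intro t ht
    rw [Submodule.mem_bot] at ht ⊢
    rw [ht, map_zero]

/-- the reverse transport -/
theorem transport' (ρ : Representation k G V) (ρ' : Representation k G V') (θ : V ≃ₗ[k] V')
    (hθ : ∀ g v, θ (ρ g v) = ρ' g (θ v))
    (h : HasSwapTrivialSummand ρ ρ (LinearEquiv.refl k V)) :
    HasSwapTrivialSummand ρ ρ' θ := by
  obtain ⟨A, B, hc, h0, hA, hB, hsA, hsB⟩ := h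
  let E := TensorProduct.congr (LinearEquiv.refl k V) θ
  have hE : ∀ (C : Submodule k (TensorProduct k V V)) (t : TensorProduct k V V'),
      t ∈ C.comap E.symm.toLinearMap ↔ E.symm t ∈ C := fun C t => Iff.rfl
  have htp : ∀ g t, E.symm ((ρ.tprod ρ') g t) = (ρ.tprod ρ) g (E.symm t) := fun g t => by
    apply E.injective
    rw [LinearEquiv.apply_symm_apply]
    have := tprod_congr ρ ρ' θ hθ g (E.symm t)
    rw [this]
    show _ = (ρ.tprod ρ') g (E (E.symm t))
    rw [LinearEquiv.apply_symm_apply]
  have hsw : ∀ t, E.symm (swap θ t) = TensorProduct.comm k V V (E.symm t) := fun t => by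
    apply E.injective
    rw [LinearEquiv.apply_symm_apply]
    have := swap_congr θ (E.symm t)
    rw [← this]
    show swap θ t = swap θ (E (E.symm t))
    rw [LinearEquiv.apply_symm_apply]
  refine ⟨A.comap E.symm.toLinearMap, B.comap E.symm.toLinearMap, ?_, ?_, ?_, ?_, ?_, ?_⟩
  · rw [isCompl_iff, disjoint_iff, codisjoint_iff]
    constructor
    · rw [Submodule.eq_bot_iff]
      intro t ht
      obtain ⟨h1, h2⟩ := Submodule.mem_inf.mp ht
      have h3 : E.symm t ∈ A ⊓ B := Submodule.mem_inf.mpr ⟨h1, h2⟩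
      rw [hc.inf_eq_bot, Submodule.mem_bot] at h3
      exact (LinearEquiv.map_eq_zero_iff E.symm).mp h3
    · rw [eq_top_iff]
      intro t _
      have h1 : E.symm t ∈ A ⊔ B := by rw [hc.sup_eq_top]; exact Submodule.mem_top
      obtain ⟨a, ha, b, hb, hab⟩ := Submodule.mem_sup.mp h1
      refine Submodule.mem_sup.mpr ⟨E a, ?_, E b, ?_, ?_⟩
      · rw [hE, LinearEquiv.symm_apply_apply]; exact ha
      · rw [hE, LinearEquiv.symm_apply_apply]; exact hb
      · rw [← map_add, hab, LinearEquiv.apply_symm_apply]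
  · intro h
    apply h0
    rw [Submodule.eq_bot_iff] at h ⊢
    intro a ha
    have h1 := h (E a) (by rw [hE, LinearEquiv.symm_apply_apply]; exact ha)
    rw [← LinearEquiv.symm_apply_apply E a, h1, map_zero]
  · intro g t ht
    rw [hE] at ht ⊢
    rw [htp]
    exact hA g _ ht
  · intro g t ht
    rw [hE] at ht ⊢
    rw [htp]
    exact hB g _ ht
  · intro t ht
    rw [hE] at ht
    have h1 := hsA _ ht
    rw [swap_refl] at h1
    apply E.symm.injective
    rw [hsw, h1]
  · intro t ht
    rw [hE] at ht ⊢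
    have h1 := hsB _ ht
    rw [swap_refl] at h1
    rw [hsw]
    exact h1

theorem square_to_one [CharP k 2] [PerfectRing k 2] [Finite G] [FiniteDimensional k V]
    (hG : IsPGroup 2 G) (ρ : Representation k G V) (hV : IsIndec ρ) (hodd : Odd (finrank k V))
    (h : HasAnisotropicSquare ρ) : finrank k V = 1 := by
  obtain ⟨W, _, _, σ, β, hd, hs, hinv, hne⟩ := h
  have hpos : 0 < finrank k W := by rw [hd]; exact hodd.pos
  have : FiniteDimensional k W := FiniteDimensional.of_finrank_pos hpos
  apply finrank_eq_one ρ hV.2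
  let f : V →ₗ[k] V →ₗ[k] (Dual k W) →ₗ[k] k := β.compr₂ (Module.Dual.eval k W)
  have hf : ∀ x y w, f x y w = w (β x y) := fun x y w => rfl
  refine summand_of_trilinear hG ρ σ.dual hodd (by rw [Subspace.dual_finrank_eq, hd]) f
    (fun x y => by
      ext w
      rw [hf, hf, hs]) (fun x hx => ?_) (fun g x y w => ?_)
  · apply hne
    rw [← Module.forall_dual_apply_eq_zero_iff k (β x x)]
    intro w
    exact LinearMap.congr_fun hx w
  · rw [hf, hf, hinv]
    show w (σ g⁻¹ (σ g (β x y))) = w (β x y)
    rw [← Module.End.mul_apply, ← map_mul, inv_mul_cancel, map_one]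
    rfl

theorem one_to_square [CharP k 2] [Finite G] (hG : IsPGroup 2 G) (ρ : Representation k G V)
    (h1 : finrank k V = 1) : HasAnisotropicSquare ρ := by
  have hfd : FiniteDimensional k V := FiniteDimensional.of_finrank_eq_succ h1
  have htriv := trivial_of_finrank_one hG ρ h1
  let e : V ≃ₗ[k] k := LinearEquiv.ofFinrankEq V k (by rw [h1, finrank_self])
  refine ⟨k, inferInstance, inferInstance, 1,
    (LinearMap.mul k k).compl₁₂ e.toLinearMap e.toLinearMap, ?_, ?_, ?_, ?_⟩
  · rw [finrank_self, h1]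
  · intro x y
    show e x * e y = e y * e x
    rw [mul_comm]
  · intro g x y
    rw [htriv, htriv]
    rfl
  · intro x hx
    have h2 : e x * e x = 0 := hx
    exact (LinearEquiv.map_eq_zero_iff e).mp (mul_self_eq_zero.mp h2)

theorem swap_to_one [CharP k 2] [PerfectRing k 2] [Finite G] [FiniteDimensional k V]
    (hG : IsPGroup 2 G) (ρ : Representation k G V) (hV : IsIndec ρ) (hodd : Odd (finrank k V))
    (h : HasSwapTrivialSummand ρ ρ (LinearEquiv.refl k V)) : finrank k V = 1 := by
  obtain ⟨A, B, hc, h0, hA, hB, hsA, hsB⟩ := h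
  apply finrank_eq_one ρ hV.2
  exact swap_summand hG ρ hodd hV.2 A B hc hA hB
    (fun t ht => by rw [← swap_refl]; exact hsA t ht)
    (fun t ht => by rw [← swap_refl]; exact hsB t ht) h0

/-- **The final statement.** -/
theorem concl [CharP k 2] [PerfectRing k 2] [Finite G] [FiniteDimensional k V]
    (hG : IsPGroup 2 G) (ρ : Representation k G V) (hV : IsIndec ρ) (hodd : Odd (finrank k V)) :
    List.TFAE [finrank k V = 1,
      HasSwapTrivialSummand ρ ρ (LinearEquiv.refl k V),
      ∃ θ : V ≃ₗ[k] Dual k V, (∀ g v, θ (ρ g v) = ρ.dual g (θ v)) ∧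
        HasSwapTrivialSummand ρ ρ.dual θ,
      HasAnisotropicSquare ρ] := by
  tfae_have 1 → 2 := one_to_swap ρ
  tfae_have 2 → 1 := swap_to_one hG ρ hV hodd
  tfae_have 1 → 3 := fun h1 => by
    have htriv := trivial_of_finrank_one hG ρ h1
    have htriv' := trivial_of_finrank_one hG ρ.dual (by rw [Subspace.dual_finrank_eq, h1])
    let θ : V ≃ₗ[k] Dual k V := LinearEquiv.ofFinrankEq V (Dual k V)
      (by rw [Subspace.dual_finrank_eq])
    have hθ : ∀ g v, θ (ρ g v) = ρ.dual g (θ v) := fun g v => by rw [htriv, htriv']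
    exact ⟨θ, hθ, transport' ρ ρ.dual θ hθ (one_to_swap ρ h1)⟩
  tfae_have 3 → 1 := fun ⟨θ, hθ, h⟩ =>
    swap_to_one hG ρ hV hodd (transport ρ ρ.dual θ hθ h)
  tfae_have 1 → 4 := one_to_square hG ρ
  tfae_have 4 → 1 := square_to_one hG ρ hV hodd
  tfae_finish

end

end Pool.SqSplit
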