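import Mathlib

/-!
# The squaring map does not split: finite fields

Parity count: for a trilinear form `f : V × V × W → F`, symmetric in the first two variables, with
`dim V = dim W` and `f(x, x, ·) ≠ 0` for `x ≠ 0`, the number of `w` for which `f(·, ·, w)` is
nondegenerate is odd.
-/

set_option autoImplicit false

namespace Pool.SqSplit

open Module

/-- in characteristic two a symmetric double sum is the sum of its diagonal -/
theorem sum_symm {ι M : Type*} [Fintype ι] [DecidableEq ι] [AddCommMonoid M]
    (h2 : ∀ m : M, m + m = 0) (c : ι → ι → M) (hc : ∀ i j, c i j = c j i) :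
    ∑ i, ∑ j, c i j = ∑ i, c i i := by
  classical
  rw [← Finset.sum_product']
  have hsplit : (Finset.univ ×ˢ Finset.univ : Finset (ι × ι)) =
      (Finset.univ : Finset ι).diag ∪ (Finset.univ : Finset ι).offDiag := by
    rw [Finset.diag_union_offDiag]
  rw [hsplit, Finset.sum_union (Finset.disjoint_diag_offDiag _)]
  have h1 : ∑ x ∈ (Finset.univ : Finset ι).offDiag, c x.1 x.2 = 0 := by
    refine Finset.sum_involution (fun a _ => a.swap) ?_ ?_ ?_ ?_
    · intro a _
      show c a.1 a.2 + c a.2 a.1 = 0
      rw [hc a.2 a.1]
      exact h2 _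
    · intro a ha _ heq
      rw [Finset.mem_offDiag] at ha
      exact ha.2.2 (congrArg Prod.snd heq)
    · intro a ha
      rw [Finset.mem_offDiag] at ha ⊢
      exact ⟨ha.2.1, ha.1, fun h => ha.2.2 h.symm⟩
    · intro a _
      simp
  rw [h1, add_zero, Finset.sum_diag]

variable {F : Type*} [Field F] [Finite F] [CharP F 2]

theorem card_submodule {V : Type*} [AddCommGroup V] [Module F V] [Finite V]
    (K : Submodule F V) [Decidable (K = ⊥)] :
    (Nat.card K : ZMod 2) = if K = ⊥ then 1 else 0 := by
  classical
  have : Fintype F := Fintype.ofFinite F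
  have : Fintype K := Fintype.ofFinite K
  have hq : ((Fintype.card F : ℕ) : ZMod 2) = 0 := by
    have h2 : ringChar F = 2 := ringChar.eq F 2
    have := (FiniteField.even_card_iff_char_two (F := F)).mp h2
    rw [ZMod.natCast_eq_zero_iff]
    omega
  rw [Nat.card_eq_fintype_card, Module.card_eq_pow_finrank (K := F)]
  by_cases hK : K = ⊥
  · rw [if_pos hK, hK]
    simp
  · rw [if_neg hK, Nat.cast_pow, hq, zero_pow]
    intro h0
    exact hK (Submodule.finrank_eq_zero.mp h0)

theorem sum_mem_submodule {X : Type*} [AddCommGroup X] [Module F X] [Fintype X]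
    (S : Submodule F X) [DecidablePred (· ∈ S)] [Decidable (S = ⊥)] :
    (∑ x : X, if x ∈ S then (1 : ZMod 2) else 0) = if S = ⊥ then 1 else 0 := by
  rw [← card_submodule S, Finset.sum_boole, Nat.card_eq_fintype_card]
  congr 1
  exact (Fintype.card_subtype _).symm

/-- left kernel zero iff right kernel zero, for spaces of the same dimension -/
theorem kernel_iff {F V W : Type*} [Field F] [AddCommGroup V] [Module F V] [AddCommGroup W]
    [Module F W] [FiniteDimensional F V] [FiniteDimensional F W]
    (hd : finrank F V = finrank F W) (B : V →ₗ[F] W →ₗ[F] F) :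
    (∀ w : W, (∀ v : V, B v w = 0) → w = 0) ↔ (∀ v : V, (∀ w : W, B v w = 0) → v = 0) := by
  constructor
  · intro h
    have hinj : Function.Injective B.flip := by
      rw [← LinearMap.ker_eq_bot, LinearMap.ker_eq_bot']
      intro w hw
      exact h w fun v => by
        have := LinearMap.congr_fun hw v
        simpa using this
    have hsurj : Function.Surjective B.flip := by
      refine (LinearMap.injective_iff_surjective_of_finrank_eq_finrank ?_).mp hinj
      rw [Subspace.dual_finrank_eq, hd]
    intro v hv
    rw [← Module.forall_dual_apply_eq_zero_iff F v]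
    intro φ
    obtain ⟨w, hw⟩ := hsurj φ
    rw [← hw]
    exact hv w
  · intro h
    have hinj : Function.Injective B := by
      rw [← LinearMap.ker_eq_bot, LinearMap.ker_eq_bot']
      intro v hv
      exact h v fun w => by rw [hv]; rfl
    have hsurj : Function.Surjective B := by
      refine (LinearMap.injective_iff_surjective_of_finrank_eq_finrank ?_).mp hinj
      rw [Subspace.dual_finrank_eq, hd]
    intro w hw
    rw [← Module.forall_dual_apply_eq_zero_iff F w]
    intro φ
    obtain ⟨v, hv⟩ := hsurj φ
    rw [← hv]
    exact hw v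

/-- the number of `w` with `f(·, ·, w)` nondegenerate is odd -/
theorem odd_count {V W : Type*} [AddCommGroup V] [Module F V] [AddCommGroup W] [Module F W]
    [Finite V] [Finite W] [FiniteDimensional F V] [FiniteDimensional F W]
    (hd : finrank F V = finrank F W) (f : V →ₗ[F] V →ₗ[F] W →ₗ[F] F)
    (hs : ∀ x y, f x y = f y x) (hne : ∀ x, f x x = 0 → x = 0) :
    Odd (Nat.card {w : W // ∀ x, (∀ y, f x y w = 0) → x = 0}) := by
  classical
  have : Fintype V := Fintype.ofFinite V
  have : Fintype W := Fintype.ofFinite W
  -- the submodules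
  let K : W → Submodule F V := fun w => LinearMap.ker ((f.compr₂ (Module.Dual.eval F W w)))
  have hK : ∀ w x, x ∈ K w ↔ ∀ y, f x y w = 0 := by
    intro w x
    simp only [K, LinearMap.mem_ker]
    constructor
    · intro h y
      have := LinearMap.congr_fun h y
      simpa using this
    · intro h
      ext y
      simpa using h y
  let L : V → Submodule F W := fun x => LinearMap.ker ((f x).flip)
  have hL : ∀ x w, w ∈ L x ↔ ∀ y, f x y w = 0 := by
    intro x w
    simp only [L, LinearMap.mem_ker]
    constructor
    · intro h y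
      have := LinearMap.congr_fun h y
      simpa using this
    · intro h
      ext y
      simpa using h y
  let M : V → Submodule F V := fun x => LinearMap.ker (f x)
  have hM : ∀ x y, y ∈ M x ↔ f x y = 0 := fun x y => LinearMap.mem_ker
  have hLM : ∀ x, L x = ⊥ ↔ M x = ⊥ := by
    intro x
    have h := kernel_iff hd (f x)
    constructor
    · intro hl
      rw [Submodule.eq_bot_iff]
      intro y hy
      refine h.mp ?_ y fun w => ?_
      · intro w hw
        have : w ∈ L x := (hL x w).mpr hw
        rw [hl] at this
        exact this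
      · rw [(hM x y).mp hy]
        rfl
    · intro hm
      rw [Submodule.eq_bot_iff]
      intro w hw
      refine h.mpr ?_ w ((hL x w).mp hw)
      intro y hy
      have : y ∈ M x := (hM x y).mpr (LinearMap.ext hy)
      rw [hm] at this
      exact this
  have key : ((Nat.card {w : W // ∀ x, (∀ y, f x y w = 0) → x = 0} : ℕ) : ZMod 2) = 1 := by
    calc ((Nat.card {w : W // ∀ x, (∀ y, f x y w = 0) → x = 0} : ℕ) : ZMod 2)
        = ∑ w : W, if K w = ⊥ then (1 : ZMod 2) else 0 := by
          rw [Finset.sum_boole, Nat.card_eq_fintype_card, Fintype.card_subtype]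
          congr 2
          ext w
          simp only [Finset.mem_filter, Finset.mem_univ, true_and]
          rw [Submodule.eq_bot_iff]
          exact ⟨fun h x hx => h x ((hK w x).mp hx), fun h x hx => h x ((hK w x).mpr hx)⟩
      _ = ∑ w : W, ∑ x : V, if x ∈ K w then (1 : ZMod 2) else 0 :=
          Finset.sum_congr rfl fun w _ => (sum_mem_submodule (K w)).symm
      _ = ∑ x : V, ∑ w : W, if w ∈ L x then (1 : ZMod 2) else 0 := by
          rw [Finset.sum_comm]
          refine Finset.sum_congr rfl fun x _ => Finset.sum_congr rfl fun w _ => ?_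
          have : (x ∈ K w) ↔ (w ∈ L x) := by rw [hK, hL]
          simp only [this]
      _ = ∑ x : V, ∑ y : V, if f x y = 0 then (1 : ZMod 2) else 0 := by
          refine Finset.sum_congr rfl fun x _ => ?_
          rw [sum_mem_submodule (L x)]
          simp only [hLM x]
          rw [← sum_mem_submodule (M x)]
          exact Finset.sum_congr rfl fun y _ => by simp only [hM x y]
      _ = ∑ x : V, if f x x = 0 then (1 : ZMod 2) else 0 := by
          refine sum_symm (fun m => CharTwo.add_self_eq_zero m) _ ?_
          intro x y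
          rw [hs x y]
      _ = ∑ x : V, if x = 0 then (1 : ZMod 2) else 0 := by
          refine Finset.sum_congr rfl fun x _ => ?_
          have : f x x = 0 ↔ x = 0 := ⟨hne x, fun h => by rw [h, map_zero]⟩
          simp only [this]
      _ = 1 := by simp
  rw [ZMod.natCast_eq_one_iff_odd] at key
  exact key

/-- a form with symmetric slices, over a finite field: an invariant nondegenerate slice exists -/
theorem exists_fixed {G : Type*} [Group G] [Finite G] (hG : IsPGroup 2 G)
    {V W : Type*} [AddCommGroup V] [Module F V] [AddCommGroup W] [Module F W]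
    [Finite V] [Finite W] [FiniteDimensional F V] [FiniteDimensional F W]
    (ρ : Representation F G V) (σ : Representation F G W)
    (hd : finrank F V = finrank F W) (f : V →ₗ[F] V →ₗ[F] W →ₗ[F] F)
    (hs : ∀ x y, f x y = f y x) (hne : ∀ x, f x x = 0 → x = 0)
    (hinv : ∀ g x y w, f (ρ g x) (ρ g y) (σ g w) = f x y w) :
    ∃ w : W, (∀ g, σ g w = w) ∧ ∀ x, (∀ y, f x y w = 0) → x = 0 := by
  classical
  have hodd := odd_count hd f hs hne
  have hstab : ∀ g (w : W), (∀ x, (∀ y, f x y w = 0) → x = 0) →
      ∀ x, (∀ y, f x y (σ g w) = 0) → x = 0 := by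
    intro g w hw x hx
    have h1 : ρ g⁻¹ x = 0 := by
      refine hw _ fun y => ?_
      have h2 := hinv g (ρ g⁻¹ x) y w
      rw [← Module.End.mul_apply, ← map_mul, mul_inv_cancel, map_one] at h2
      rw [← h2]
      exact hx _
    have h3 : x = ρ g (ρ g⁻¹ x) := by
      rw [← Module.End.mul_apply, ← map_mul, mul_inv_cancel, map_one]
      rfl
    rw [h3, h1, map_zero]
  let α := {w : W // ∀ x, (∀ y, f x y w = 0) → x = 0}
  let _ : MulAction G α :=
    { smul := fun g w => ⟨σ g w.1, hstab g w.1 w.2⟩
      one_smul := fun w => Subtype.ext (by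
        show σ 1 w.1 = w.1
        rw [map_one]; rfl)
      mul_smul := fun g h w => Subtype.ext (by
        show σ (g * h) w.1 = σ g (σ h w.1)
        rw [map_mul]; rfl) }
  have : Finite α := Subtype.finite
  have : Fact (Nat.Prime 2) := ⟨Nat.prime_two⟩
  have hmod := hG.card_modEq_card_fixedPoints α
  have hfix : (MulAction.fixedPoints G α).Nonempty := by
    rw [Set.nonempty_iff_ne_empty]
    intro hempty
    rw [hempty] at hmod
    have h0 : Nat.card (∅ : Set α) = 0 := by simp
    rw [h0] at hmod
    have h1 : Nat.card α % 2 = 1 := Nat.odd_iff.mp hodd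
    unfold Nat.ModEq at hmod
    omega
  obtain ⟨w, hw⟩ := hfix
  refine ⟨w.1, fun g => ?_, w.2⟩
  have := hw g
  exact congrArg Subtype.val this

/-- the trace identity -/
theorem trace_identity {ι : Type*} [Fintype ι] [DecidableEq ι] {k : Type*} [Field k] [CharP k 2]
    (S T : Matrix ι ι k) (s : ι → k) (hS : ∀ i j, S i j = S j i) (hT : ∀ i j, T i j = T j i)
    (hTS : T * S = 1) (hs : ∀ i, s i ^ 2 = S i i) :
    ∑ i, (∑ j, s j * T j i) * s i = (Fintype.card ι : k) := by
  have h2 : ∀ m : k, m + m = 0 := fun m => CharTwo.add_self_eq_zero m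
  have h1 : ∑ i, (∑ j, s j * T j i) * s i = ∑ i, s i * T i i * s i := by
    simp only [Finset.sum_mul]
    refine sum_symm h2 _ ?_
    intro i j
    rw [hT j i]
    ring
  have h3 : ∑ i, ∑ j, T i j * S j i = ∑ i, T i i * S i i := by
    refine sum_symm h2 _ ?_
    intro i j
    rw [hT i j, hS j i]
  have h4 : ∑ i, ∑ j, T i j * S j i = (Fintype.card ι : k) := by
    have : ∑ i, (T * S) i i = ∑ i : ι, (1 : k) := by
      rw [hTS]
      exact Finset.sum_congr rfl fun i _ => Matrix.one_apply_eq i
    rw [Finset.sum_const, Finset.card_univ, nsmul_eq_mul, mul_one] at this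
    rw [← this]
    rfl
  rw [h1, ← h4, h3]
  refine Finset.sum_congr rfl fun i _ => ?_
  rw [← hs i]
  ring

/-- a nondegenerate invariant symmetric form on a space of odd dimension over a perfect field of
characteristic two gives a trivial summand -/
theorem summand_of_form {k : Type*} [Field k] [CharP k 2] [PerfectRing k 2]
    {G : Type*} [Group G] {V : Type*} [AddCommGroup V] [Module k V]
    [FiniteDimensional k V] (ρ : Representation k G V) (hodd : Odd (finrank k V))
    (b : V →ₗ[k] V →ₗ[k] k) (hs : ∀ x y, b x y = b y x) (hinv : ∀ g x y, b (ρ g x) (ρ g y) = b x y)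
    (hnd : ∀ x, (∀ y, b x y = 0) → x = 0) :
    ∃ (x : V) (y : V →ₗ[k] k), (∀ g, ρ g x = x) ∧ (∀ g v, y (ρ g v) = y v) ∧ y x ≠ 0 := by
  classical
  have h2 : ∀ m : k, m + m = 0 := fun m => CharTwo.add_self_eq_zero m
  let r : k → k := (frobeniusEquiv k 2).symm
  have hr : ∀ a, r a ^ 2 = a := fun a => by
    have := (frobeniusEquiv k 2).apply_symm_apply a
    rw [frobeniusEquiv_apply, frobenius_def] at this
    exact this
  have hinj2 : ∀ a c : k, a ^ 2 = c ^ 2 → a = c := fun a c h => by
    have := (frobeniusEquiv k 2).injective (a₁ := a) (a₂ := c)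
    apply this
    rw [frobeniusEquiv_apply, frobeniusEquiv_apply, frobenius_def, frobenius_def]
    exact h
  let ℓ : V →ₗ[k] k :=
    { toFun := fun x => r (b x x)
      map_add' := fun x y => by
        apply hinj2
        rw [hr, add_sq, hr, hr]
        have h20 : (2 : k) = 0 := CharTwo.two_eq_zero
        have hexp : b (x + y) (x + y) = b x x + b x y + (b y x + b y y) := by
          simp only [map_add, LinearMap.add_apply]
          ring
        rw [hexp, hs y x, h20]
        have := h2 (b x y)
        linear_combination this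
      map_smul' := fun a x => by
        apply hinj2
        have hexp : b (a • x) (a • x) = a * (a * b x x) := by
          simp only [map_smul, LinearMap.smul_apply, smul_eq_mul]
        rw [hr, RingHom.id_apply, smul_eq_mul, mul_pow, hr, hexp]
        ring }
  have hℓ : ∀ x, ℓ x ^ 2 = b x x := fun x => hr _
  have hℓinv : ∀ g v, ℓ (ρ g v) = ℓ v := fun g v => by
    apply hinj2
    rw [hℓ, hℓ, hinv]
  have hinj : Function.Injective b := by
    rw [← LinearMap.ker_eq_bot, LinearMap.ker_eq_bot']
    intro x hx
    exact hnd x fun y => by rw [hx]; rfl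
  have hsurj : Function.Surjective b := by
    refine (LinearMap.injective_iff_surjective_of_finrank_eq_finrank ?_).mp hinj
    rw [Subspace.dual_finrank_eq]
  obtain ⟨z, hz⟩ := hsurj ℓ
  refine ⟨z, ℓ, ?_, hℓinv, ?_⟩
  · intro g
    apply hinj
    rw [hz]
    ext y
    have h3 : ρ g (ρ g⁻¹ y) = y := by
      rw [← Module.End.mul_apply, ← map_mul, mul_inv_cancel, map_one]
      rfl
    calc b (ρ g z) y = b (ρ g z) (ρ g (ρ g⁻¹ y)) := by rw [h3]
      _ = ℓ (ρ g⁻¹ y) := by rw [hinv, hz]
      _ = ℓ y := hℓinv _ _
  · let e := Module.finBasis k V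
    let S : Matrix (Fin (finrank k V)) (Fin (finrank k V)) k := fun i j => b (e i) (e j)
    have hSsymm : ∀ i j, S i j = S j i := fun i j => hs _ _
    have hSinj : Function.Injective S.mulVec := by
      intro u v huv
      have h5 : ∀ j, b (∑ i, (u i - v i) • e i) (e j) = 0 := by
        intro j
        have h6 := congrFun huv j
        simp only [Matrix.mulVec, dotProduct] at h6
        rw [map_sum, LinearMap.sum_apply]
        simp only [map_smul, LinearMap.smul_apply, smul_eq_mul, sub_mul, Finset.sum_sub_distrib]
        have h7 : ∀ (q : Fin (finrank k V) → k), ∑ i, q i * b (e i) (e j) = ∑ i, S j i * q i :=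
          fun q => Finset.sum_congr rfl fun i _ => by
            rw [hSsymm j i]
            exact mul_comm _ _
        rw [h7, h7, h6, sub_self]
      have h8 : ∑ i, (u i - v i) • e i = 0 := by
        refine hnd _ fun y => ?_
        rw [← e.sum_repr y, map_sum]
        refine Finset.sum_eq_zero fun j _ => ?_
        rw [map_smul, h5 j, smul_zero]
      have h9 := (Fintype.linearIndependent_iff.mp e.linearIndependent) _ h8
      funext i
      exact sub_eq_zero.mp (h9 i)
    have hSunit : IsUnit S := Matrix.mulVec_injective_iff_isUnit.mp hSinj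
    have hdet : IsUnit S.det := (Matrix.isUnit_iff_isUnit_det S).mp hSunit
    let T := S⁻¹
    have hTS : T * S = 1 := Matrix.nonsing_inv_mul S hdet
    have hST : S * T = 1 := Matrix.mul_nonsing_inv S hdet
    have hTsymm : ∀ i j, T i j = T j i := by
      have h10 : T.transpose = T := by
        have h11 : S.transpose = S := by
          ext i j
          exact hSsymm j i
        show (S⁻¹).transpose = S⁻¹
        rw [Matrix.transpose_nonsing_inv, h11]
      intro i j
      exact congrFun (congrFun h10 j) i
    let s : Fin (finrank k V) → k := fun i => ℓ (e i)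
    have htr := trace_identity S T s hSsymm hTsymm hTS (fun i => hℓ _)
    -- coordinates of z
    let c : Fin (finrank k V) → k := fun i => e.repr z i
    have hc : ∀ j, ∑ i, c i * S i j = s j := by
      intro j
      have h12 : b z (e j) = s j := by rw [hz]
      have h16 : b z (e j) = b (∑ i, e.repr z i • e i) (e j) := by rw [e.sum_repr z]
      rw [← h12, h16, map_sum, LinearMap.sum_apply]
      refine Finset.sum_congr rfl fun i _ => ?_
      rw [map_smul, LinearMap.smul_apply, smul_eq_mul]
    have hcT : ∀ i, c i = ∑ j, s j * T j i := by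
      intro i
      have h13 : Matrix.vecMul (Matrix.vecMul c S) T = c := by
        rw [Matrix.vecMul_vecMul, hST, Matrix.vecMul_one]
      have h14 : Matrix.vecMul c S = s := by
        funext j
        exact hc j
      rw [h14] at h13
      rw [← congrFun h13 i]
      rfl
    have hℓz : ℓ z = ∑ i, c i * s i := by
      have h16 : ℓ z = ℓ (∑ i, e.repr z i • e i) := by rw [e.sum_repr z]
      rw [h16, map_sum]
      refine Finset.sum_congr rfl fun i _ => ?_
      rw [map_smul, smul_eq_mul]
    rw [hℓz]
    have h15 : ∑ i, c i * s i = (Fintype.card (Fin (finrank k V)) : k) := by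
      rw [← htr]
      exact Finset.sum_congr rfl fun i _ => by rw [hcT i]
    rw [h15, Fintype.card_fin]
    obtain ⟨m, hm⟩ := hodd
    rw [hm]
    push_cast
    rw [CharTwo.two_eq_zero, zero_mul, zero_add]
    exact one_ne_zero

end Pool.SqSplit
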