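import Pool.Agent.Work.MP_26c40d_sq.Transfer

/-!
# The squaring map does not split: abstract statements
-/

set_option autoImplicit false

namespace Pool.SqSplit

open Module TensorProduct

section Roots

variable {k : Type*} [Field k] [CharP k 2] [PerfectRing k 2]

/-- the square root of an element of a perfect field of characteristic two -/
noncomputable def rt (a : k) : k := (frobeniusEquiv k 2).symm a

theorem rt_sq (a : k) : rt a ^ 2 = a := by
  have := (frobeniusEquiv k 2).apply_symm_apply a
  rw [frobeniusEquiv_apply, frobenius_def] at this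
  exact this

theorem sq_inj {a c : k} (h : a ^ 2 = c ^ 2) : a = c := by
  apply (frobeniusEquiv k 2).injective
  rw [frobeniusEquiv_apply, frobeniusEquiv_apply, frobenius_def, frobenius_def]
  exact h

end Roots

/-- **Main lemma.** A trilinear form on `V × V × W`, symmetric in the first two variables, with
`f(x, x, ·) ≠ 0` for `x ≠ 0` and `dim W = dim V` odd, gives a trivial summand of `V`. -/
theorem summand_of_trilinear {k : Type*} [Field k] [CharP k 2] [PerfectRing k 2] {G : Type}
    [Group G] [Finite G] (hG : IsPGroup 2 G) {V W : Type*} [AddCommGroup V] [Module k V]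
    [FiniteDimensional k V] [AddCommGroup W] [Module k W] [FiniteDimensional k W]
    (ρ : Representation k G V) (σ : Representation k G W) (hodd : Odd (finrank k V))
    (hd : finrank k W = finrank k V) (f : V →ₗ[k] V →ₗ[k] W →ₗ[k] k)
    (hs : ∀ x y, f x y = f y x) (hne : ∀ x, f x x = 0 → x = 0)
    (hinv : ∀ g x y w, f (ρ g x) (ρ g y) (σ g w) = f x y w) :
    ∃ (x : V) (y : V →ₗ[k] k), (∀ g, ρ g x = x) ∧ (∀ g v, y (ρ g v) = y v) ∧ y x ≠ 0 := by
  classical
  let e := Module.finBasis k V
  let m : Fin (finrank k V) → Dual k W := fun i => f (e i) (e i)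
  have h2W : ∀ φ : Dual k W, φ + φ = 0 := fun φ => by
    ext w
    exact CharTwo.add_self_eq_zero (φ w)
  have hsq : ∀ c : Fin (finrank k V) → k,
      f (∑ i, c i • e i) (∑ i, c i • e i) = ∑ i, (c i ^ 2) • m i := by
    intro c
    have h1 : f (∑ i, c i • e i) (∑ i, c i • e i) =
        ∑ i, ∑ j, (c i * c j) • f (e i) (e j) := by
      simp only [map_sum, LinearMap.sum_apply, map_smul, LinearMap.smul_apply]
      refine Finset.sum_congr rfl fun i _ => ?_
      rw [Finset.smul_sum]
      refine Finset.sum_congr rfl fun j _ => ?_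
      rw [smul_smul, hs (e i) (e j)]
    rw [h1, sum_symm h2W (fun i j => (c i * c j) • f (e i) (e j)) (fun i j => by
      show (c i * c j) • f (e i) (e j) = (c j * c i) • f (e j) (e i)
      rw [hs (e i) (e j), mul_comm])]
    exact Finset.sum_congr rfl fun i _ => by rw [sq]
  have hm : LinearIndependent k m := by
    rw [Fintype.linearIndependent_iff]
    intro a ha
    have h1 := hsq (fun i => rt (a i))
    simp only [rt_sq] at h1
    rw [ha] at h1
    have h3 := hne _ h1
    have h4 := (Fintype.linearIndependent_iff.mp e.linearIndependent) _ h3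
    intro i
    rw [← rt_sq (a i), h4 i]
    ring
  have hcard : Fintype.card (Fin (finrank k V)) = finrank k (Dual k W) := by
    rw [Fintype.card_fin, Subspace.dual_finrank_eq, hd]
  have : Nonempty (Fin (finrank k V)) := ⟨⟨0, hodd.pos⟩⟩
  let B : Basis (Fin (finrank k V)) k (Dual k W) :=
    basisOfLinearIndependentOfCardEqFinrank hm hcard
  have hB : ∀ i, B i = m i := fun i => by
    simp only [B, coe_basisOfLinearIndependentOfCardEqFinrank]
  let w : Basis (Fin (finrank k V)) k W := B.dualBasis.map (evalEquiv k W).symm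
  have hw : ∀ i l, f (e i) (e i) (w l) = if i = l then 1 else 0 := by
    intro i l
    have h1 : (evalEquiv k W) (w l) = B.dualBasis l := by
      show (evalEquiv k W) ((evalEquiv k W).symm (B.dualBasis l)) = B.dualBasis l
      exact LinearEquiv.apply_symm_apply _ _
    have h2 : f (e i) (e i) (w l) = (evalEquiv k W) (w l) (m i) := rfl
    rw [h2, h1, ← hB, Basis.dualBasis_apply_self]
  obtain ⟨x, y, hx, hy, hxy⟩ := matrix_field hG (ι := Fin (finrank k V))
    (by rw [Fintype.card_fin]; exact hodd)
    (fun g => LinearMap.toMatrix e e (ρ g)) (fun g => LinearMap.toMatrix w w (σ g))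
    (by show LinearMap.toMatrix e e (ρ 1) = 1; rw [map_one]; exact LinearMap.toMatrix_one e)
    (fun g h => by
      show LinearMap.toMatrix e e (ρ (g * h)) = _
      rw [map_mul]; exact LinearMap.toMatrix_mul e _ _)
    (by show LinearMap.toMatrix w w (σ 1) = 1; rw [map_one]; exact LinearMap.toMatrix_one w)
    (fun g h => by
      show LinearMap.toMatrix w w (σ (g * h)) = _
      rw [map_mul]; exact LinearMap.toMatrix_mul w _ _)
    (fun i j l => f (e i) (e j) (w l)) (fun i j l => by
      show f (e i) (e j) (w l) = f (e j) (e i) (w l)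
      rw [hs]) hw
    (fun g i' j' l' => by
      have hρ : ∀ i', ρ g (e i') = ∑ i, LinearMap.toMatrix e e (ρ g) i i' • e i := fun i' => by
        simp only [LinearMap.toMatrix_apply]
        exact (e.sum_repr _).symm
      have hσ : ∀ l', σ g (w l') = ∑ l, LinearMap.toMatrix w w (σ g) l l' • w l := fun l' => by
        simp only [LinearMap.toMatrix_apply]
        exact (w.sum_repr _).symm
      have h1 := hinv g (e i') (e j') (w l')
      rw [hρ, hρ, hσ] at h1
      simp only [map_sum, LinearMap.sum_apply, map_smul, LinearMap.smul_apply, smul_eq_mul] at h1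
      rw [← h1]
      have h2 : ∀ (c : Fin (finrank k V) → Fin (finrank k V) → Fin (finrank k V) → k),
          ∑ i, ∑ j, ∑ l, c i j l = ∑ l, ∑ j, ∑ i, c i j l := by
        intro c
        calc ∑ i, ∑ j, ∑ l, c i j l = ∑ i, ∑ l, ∑ j, c i j l :=
              Finset.sum_congr rfl fun i _ => Finset.sum_comm
          _ = ∑ l, ∑ i, ∑ j, c i j l := Finset.sum_comm
          _ = ∑ l, ∑ j, ∑ i, c i j l := Finset.sum_congr rfl fun l _ => Finset.sum_comm
      rw [h2]
      simp only [Finset.mul_sum]
      refine Finset.sum_congr rfl fun l _ => Finset.sum_congr rfl fun j _ =>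
        Finset.sum_congr rfl fun i _ => ?_
      ring)
  refine ⟨∑ i, x i • e i, e.constr k y, fun g => ?_, fun g v => ?_, ?_⟩
  · have h1 : ρ g (∑ i, x i • e i) = ∑ i, (LinearMap.toMatrix e e (ρ g)).mulVec x i • e i := by
      have h2 := LinearMap.toMatrix_mulVec_repr e e (ρ g) (∑ i, x i • e i)
      have h3 : ⇑(e.repr (∑ i, x i • e i)) = x := by
        funext j
        exact congrFun (e.repr_sum_self x) j
      rw [h3] at h2
      rw [h2]
      exact (e.sum_repr _).symm
    rw [h1, hx g]
  · have h1 : (e.constr k y) ∘ₗ (ρ g) = e.constr k y := by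
      refine e.ext fun i => ?_
      rw [LinearMap.comp_apply, Basis.constr_basis]
      have h2 : ρ g (e i) = ∑ j, LinearMap.toMatrix e e (ρ g) j i • e j := by
        simp only [LinearMap.toMatrix_apply]
        exact (e.sum_repr _).symm
      rw [h2, map_sum]
      have h3 := congrFun (hy g) i
      simp only [Matrix.mulVec, dotProduct, Matrix.transpose_apply] at h3
      rw [← h3]
      exact Finset.sum_congr rfl fun j _ => by rw [map_smul, Basis.constr_basis, smul_eq_mul]
    exact LinearMap.congr_fun h1 v
  · rw [map_sum]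
    intro h0
    apply hxy
    rw [← h0]
    exact Finset.sum_congr rfl fun i _ => by
      rw [map_smul, Basis.constr_basis, smul_eq_mul, mul_comm]

/-- the subset `A` of `V ⊗ V` with a complement, stable under `G` and the swap -/
theorem swap_summand {k : Type*} [Field k] [CharP k 2] [PerfectRing k 2] {G : Type}
    [Group G] [Finite G] (hG : IsPGroup 2 G) {V : Type*} [AddCommGroup V] [Module k V]
    [FiniteDimensional k V] (ρ : Representation k G V) (hodd : Odd (finrank k V))
    (hind : ∀ A B : Submodule k V, (∀ g, ∀ v ∈ A, ρ g v ∈ A) → (∀ g, ∀ v ∈ B, ρ g v ∈ B) →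
      IsCompl A B → A = ⊥ ∨ B = ⊥)
    (A B : Submodule k (TensorProduct k V V)) (hAB : IsCompl A B)
    (hA : ∀ g, ∀ t ∈ A, (ρ.tprod ρ) g t ∈ A) (hB : ∀ g, ∀ t ∈ B, (ρ.tprod ρ) g t ∈ B)
    (hsA : ∀ t ∈ A, TensorProduct.comm k V V t = t)
    (hsB : ∀ t ∈ B, TensorProduct.comm k V V t ∈ B) (hA0 : A ≠ ⊥) :
    ∃ (x : V) (y : V →ₗ[k] k), (∀ g, ρ g x = x) ∧ (∀ g v, y (ρ g v) = y v) ∧ y x ≠ 0 := by
  classical
  have h2 : ∀ m : k, m + m = 0 := fun m => CharTwo.add_self_eq_zero m
  have h2V : ∀ {X : Type _} [AddCommGroup X] [Module k X] (m : X), m + m = 0 := by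
    intro X _ _ m
    have : (2 : k) • m = 0 := by rw [CharTwo.two_eq_zero, zero_smul]
    rw [two_smul] at this
    exact this
  let p : TensorProduct k V V →ₗ[k] A := A.projectionOnto B hAB
  have hpA : ∀ t (ht : t ∈ A), p t = ⟨t, ht⟩ := fun t ht =>
    Submodule.projectionOnto_apply_of_mem_left hAB ht
  have hpB : ∀ t ∈ B, p t = 0 := fun t ht => by
    have := (Submodule.ker_projectionOnto hAB)
    rw [← LinearMap.mem_ker]
    show t ∈ LinearMap.ker (A.projectionOnto B hAB)
    rw [this]
    exact ht
  have hdec : ∀ t : TensorProduct k V V, ∃ a ∈ A, ∃ b ∈ B, t = a + b := fun t => by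
    have ht : t ∈ A ⊔ B := by rw [hAB.sup_eq_top]; exact Submodule.mem_top
    obtain ⟨a, ha, b, hb, hab⟩ := Submodule.mem_sup.mp ht
    exact ⟨a, ha, b, hb, hab.symm⟩
  have hpcomm : ∀ t, p (TensorProduct.comm k V V t) = p t := fun t => by
    obtain ⟨a, ha, b, hb, rfl⟩ := hdec t
    rw [map_add, map_add, map_add, hsA a ha, hpB _ (hsB b hb), hpB b hb]
  have hpG : ∀ g t, (p ((ρ.tprod ρ) g t) : TensorProduct k V V) =
      (ρ.tprod ρ) g (p t : TensorProduct k V V) := fun g t => by
    obtain ⟨a, ha, b, hb, rfl⟩ := hdec t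
    rw [map_add, map_add, map_add, hpB _ (hB g b hb), hpB b hb, hpA _ (hA g a ha), hpA a ha]
    simp
  -- the symmetric bilinear map
  let β : V →ₗ[k] V →ₗ[k] A := (TensorProduct.mk k V V).compr₂ p
  have hβ : ∀ x y, β x y = p (x ⊗ₜ[k] y) := fun x y => rfl
  have hβs : ∀ x y, β x y = β y x := fun x y => by
    rw [hβ, hβ, ← hpcomm (x ⊗ₜ[k] y), TensorProduct.comm_tmul]
  -- the quadratic functionals
  let T : (V →ₗ[k] k) → (TensorProduct k V V →ₗ[k] k) := fun y =>
    (LinearMap.mul' k k) ∘ₗ TensorProduct.map y y
  have hT : ∀ y x x', T y (x ⊗ₜ[k] x') = y x * y x' := fun y x x' => rfl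
  let e := Module.finBasis k V
  let E := e.tensorProduct e
  let co : TensorProduct k V V → Fin (finrank k V) → Fin (finrank k V) → k :=
    fun t i j => E.repr t (i, j)
  have hco : ∀ t, t = ∑ i, ∑ j, co t i j • (e i ⊗ₜ[k] e j) := fun t => by
    conv_lhs => rw [← E.sum_repr t]
    rw [Fintype.sum_prod_type]
    refine Finset.sum_congr rfl fun i _ => Finset.sum_congr rfl fun j _ => ?_
    rw [Basis.tensorProduct_apply]
  have hcos : ∀ t ∈ A, ∀ i j, co t i j = co t j i := by
    intro t ht i j
    have h1 : E.repr (TensorProduct.comm k V V t) (i, j) = co t j i := by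
      have h3 : TensorProduct.comm k V V t = ∑ i, ∑ j, co t i j • (e j ⊗ₜ[k] e i) := by
        conv_lhs => rw [hco t]
        simp only [map_sum, map_smul, TensorProduct.comm_tmul]
      rw [h3]
      simp only [map_sum, map_smul, Finsupp.coe_finsetSum, Finset.sum_apply, Finsupp.coe_smul,
        Pi.smul_apply, smul_eq_mul]
      have h4 : ∀ a b : Fin (finrank k V), E.repr (e b ⊗ₜ[k] e a) (i, j) =
          if b = i ∧ a = j then 1 else 0 := by
        intro a b
        have h5 : e b ⊗ₜ[k] e a = E (b, a) := (Basis.tensorProduct_apply _ _ _ _).symm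
        rw [h5, Basis.repr_self, Finsupp.single_apply]
        simp only [Prod.mk.injEq]
      simp only [h4]
      rw [Finset.sum_eq_single j]
      · rw [Finset.sum_eq_single i]
        · simp
        · intro b _ hb
          simp [hb]
        · intro h
          exact absurd (Finset.mem_univ _) h
      · intro a _ ha
        refine Finset.sum_eq_zero fun b _ => ?_
        simp [ha]
      · intro h
        exact absurd (Finset.mem_univ _) h
    rw [hsA t ht] at h1
    exact h1
  let D : A → V := fun a => ∑ i, rt (co a i i) • e i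
  have hD : ∀ (a : A) (y : V →ₗ[k] k), y (D a) ^ 2 = T y a := by
    intro a y
    have h1 : T y a = ∑ i, ∑ j, co a i j * (y (e i) * y (e j)) := by
      conv_lhs => rw [hco a]
      simp only [map_sum, map_smul, hT, smul_eq_mul]
    rw [h1, sum_symm h2 (fun i j => co a i j * (y (e i) * y (e j))) (fun i j => by
      show co a i j * (y (e i) * y (e j)) = co a j i * (y (e j) * y (e i))
      rw [hcos a a.2 i j, mul_comm (y (e i))])]
    show y (∑ i, rt (co a i i) • e i) ^ 2 = _
    rw [map_sum, sum_pow_char 2]
    refine Finset.sum_congr rfl fun i _ => ?_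
    rw [map_smul, smul_eq_mul, mul_pow, rt_sq, sq]
  have hMD : ∀ a : A, β (D a) (D a) = a := by
    intro a
    have h1 : β (D a) (D a) = ∑ i, co a i i • β (e i) (e i) := by
      have h3 : β (D a) (D a) = ∑ i, ∑ j, (rt (co a i i) * rt (co a j j)) • β (e i) (e j) := by
        show β (∑ i, rt (co a i i) • e i) (∑ i, rt (co a i i) • e i) = _
        simp only [map_sum, LinearMap.sum_apply, map_smul, LinearMap.smul_apply]
        refine Finset.sum_congr rfl fun i _ => ?_
        rw [Finset.smul_sum]
        refine Finset.sum_congr rfl fun j _ => ?_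
        rw [smul_smul, hβs (e i) (e j)]
      rw [h3, sum_symm h2V (fun i j => (rt (co a i i) * rt (co a j j)) • β (e i) (e j))
        (fun i j => by
          show (rt (co a i i) * rt (co a j j)) • β (e i) (e j) =
            (rt (co a j j) * rt (co a i i)) • β (e j) (e i)
          rw [hβs (e i) (e j), mul_comm])]
      refine Finset.sum_congr rfl fun i _ => ?_
      rw [← sq, rt_sq]
    have h4 : p (a : TensorProduct k V V) = a := hpA a a.2
    have h5 : p (a : TensorProduct k V V) = ∑ i, ∑ j, co a i j • β (e i) (e j) := by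
      conv_lhs => rw [hco a]
      simp only [map_sum, map_smul, hβ]
    have h6 := sum_symm h2V (fun i j => co a i j • β (e i) (e j)) (fun i j => by
      show co a i j • β (e i) (e j) = co a j i • β (e j) (e i)
      rw [hβs (e i) (e j), hcos a a.2 i j])
    exact h1.trans ((h5.trans h6).symm.trans h4)
  have hsep : ∀ u v : V, (∀ y : V →ₗ[k] k, y u = y v) → u = v := fun u v h => by
    rw [← sub_eq_zero, ← Module.forall_dual_apply_eq_zero_iff k (u - v)]
    intro φ
    rw [map_sub, h φ, sub_self]
  -- the idempotent endomorphism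
  let N : V →ₗ[k] V :=
    { toFun := fun x => D (β x x)
      map_add' := fun x x' => by
        refine hsep _ _ fun y => sq_inj ?_
        have h3 : β (x + x') (x + x') = β x x + β x' x' := by
          have h30 : β (x + x') (x + x') = β x x + β x' x + (β x x' + β x' x') := by
            simp only [map_add, LinearMap.add_apply]
          rw [h30, hβs x' x]
          have := h2V (β x x')
          calc β x x + β x x' + (β x x' + β x' x') = β x x + (β x x' + β x x') + β x' x' := by abel
            _ = β x x + β x' x' := by rw [this, add_zero]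
        have h31 : y (D (β (x + x') (x + x'))) ^ 2 = T y (β x x) + T y (β x' x') := by
          rw [hD, h3, Submodule.coe_add, map_add]
        rw [h31, map_add, CharTwo.add_sq, hD, hD]
      map_smul' := fun a x => by
        refine hsep _ _ fun y => sq_inj ?_
        have h3 : β (a • x) (a • x) = a ^ 2 • β x x := by
          simp only [map_smul, LinearMap.smul_apply, smul_smul, sq]
        have h31 : y (D (β (a • x) (a • x))) ^ 2 = a ^ 2 * T y (β x x) := by
          rw [hD, h3, Submodule.coe_smul, map_smul, smul_eq_mul]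
        have h32 : y (a • D (β x x)) ^ 2 = a ^ 2 * T y (β x x) := by
          rw [map_smul, smul_eq_mul, mul_pow, hD]
        exact h31.trans h32.symm }
  have hN : ∀ x, N x = D (β x x) := fun x => rfl
  have hβG : ∀ g x y, (β (ρ g x) (ρ g y) : TensorProduct k V V) =
      (ρ.tprod ρ) g (β x y : TensorProduct k V V) := fun g x y => by
    rw [hβ, hβ, ← hpG]
    rfl
  have hNG : ∀ g x, N (ρ g x) = ρ g (N x) := by
    intro g x
    refine hsep _ _ fun y => sq_inj ?_
    have h3 : y (ρ g (N x)) = (y ∘ₗ ρ g) (N x) := rfl
    rw [h3, hN, hN, hD, hD, hβG]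
    have h4 : ∀ t : TensorProduct k V V, T y ((ρ.tprod ρ) g t) = T (y ∘ₗ ρ g) t := by
      intro t
      induction t using TensorProduct.induction_on with
      | zero => rw [map_zero, map_zero, map_zero]
      | tmul u v => rfl
      | add u v hu hv => rw [map_add, map_add, map_add, hu, hv]
    rw [h4]
  have hNN : N ∘ₗ N = N := by
    refine LinearMap.ext fun x => ?_
    show D (β (D (β x x)) (D (β x x))) = D (β x x)
    rw [hMD]
  have hcompl := LinearMap.IsIdempotentElem.isCompl (f := N) hNN
  have hcases := hind (LinearMap.range N) (LinearMap.ker N)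
    (fun g v hv => by
      obtain ⟨u, rfl⟩ := hv
      exact ⟨ρ g u, hNG g u⟩)
    (fun g v hv => by
      rw [LinearMap.mem_ker] at hv ⊢
      rw [hNG, hv, map_zero]) hcompl
  have hker : LinearMap.ker N = ⊥ := by
    rcases hcases with h | h
    · exfalso
      apply hA0
      have hN0 : ∀ x, N x = 0 := fun x => by
        have : N x ∈ LinearMap.range N := ⟨x, rfl⟩
        rw [h] at this
        exact this
      rw [Submodule.eq_bot_iff]
      intro t ht
      have h5 := hMD ⟨t, ht⟩
      have h6 : D ⟨t, ht⟩ = 0 := by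
        rw [← hN0 (D ⟨t, ht⟩), hN, hMD]
      rw [h6, map_zero] at h5
      have h7 := congrArg Subtype.val h5
      exact h7.symm
    · exact h
  have hMinj : ∀ x, β x x = 0 → x = 0 := by
    intro x hx
    have h5 : N x = 0 := by
      rw [hN, hx]
      have h6 : N 0 = D 0 := by
        rw [hN, map_zero]
      rw [← h6, map_zero]
    have : x ∈ LinearMap.ker N := h5
    rw [hker] at this
    exact this
  -- the dimension of A
  have hMsum : ∀ c : Fin (finrank k V) → k,
      β (∑ i, c i • e i) (∑ i, c i • e i) = ∑ i, (c i ^ 2) • β (e i) (e i) := by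
    intro c
    have h1 : β (∑ i, c i • e i) (∑ i, c i • e i) =
        ∑ i, ∑ j, (c i * c j) • β (e i) (e j) := by
      simp only [map_sum, LinearMap.sum_apply, map_smul, LinearMap.smul_apply]
      refine Finset.sum_congr rfl fun i _ => ?_
      rw [Finset.smul_sum]
      refine Finset.sum_congr rfl fun j _ => ?_
      rw [smul_smul, hβs (e i) (e j)]
    rw [h1, sum_symm h2V (fun i j => (c i * c j) • β (e i) (e j)) (fun i j => by
      show (c i * c j) • β (e i) (e j) = (c j * c i) • β (e j) (e i)
      rw [hβs (e i) (e j), mul_comm])]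
    exact Finset.sum_congr rfl fun i _ => by rw [sq]
  have hli : LinearIndependent k (fun i => β (e i) (e i)) := by
    rw [Fintype.linearIndependent_iff]
    intro a ha
    have h1 := hMsum (fun i => rt (a i))
    simp only [rt_sq] at h1
    rw [ha] at h1
    have h3 := hMinj _ h1
    have h4 := (Fintype.linearIndependent_iff.mp e.linearIndependent) _ h3
    intro i
    rw [← rt_sq (a i), h4 i]
    ring
  have hspan : ⊤ ≤ Submodule.span k (Set.range fun i => β (e i) (e i)) := by
    intro a _
    rw [← hMD a, ← e.sum_repr (D a), hMsum]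
    refine Submodule.sum_mem _ fun i _ => Submodule.smul_mem _ _ (Submodule.subset_span ⟨i, rfl⟩)
  have hdim : finrank k A = finrank k V := by
    have := finrank_eq_card_basis (Basis.mk hli hspan)
    rw [this, Fintype.card_fin]
  -- the representation on A and its dual
  let ρA : Representation k G A :=
    { toFun := fun g => ((ρ.tprod ρ) g).restrict (hA g)
      map_one' := by
        ext a
        show (ρ.tprod ρ) 1 (a : TensorProduct k V V) = a
        rw [map_one]; rfl
      map_mul' := fun g h => by
        ext a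
        show (ρ.tprod ρ) (g * h) (a : TensorProduct k V V) =
          (ρ.tprod ρ) g ((ρ.tprod ρ) h (a : TensorProduct k V V))
        rw [map_mul]; rfl }
  have hρA : ∀ g x y, β (ρ g x) (ρ g y) = ρA g (β x y) := fun g x y =>
    Subtype.ext (hβG g x y)
  let f : V →ₗ[k] V →ₗ[k] (Dual k A) →ₗ[k] k := β.compr₂ (Module.Dual.eval k A)
  have hf : ∀ x y w, f x y w = w (β x y) := fun x y w => rfl
  refine summand_of_trilinear hG ρ ρA.dual hodd (by rw [Subspace.dual_finrank_eq, hdim]) f
    (fun x y => by
      ext w
      rw [hf, hf, hβs]) (fun x hx => ?_) (fun g x y w => ?_)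
  · apply hMinj
    rw [← Module.forall_dual_apply_eq_zero_iff k (β x x)]
    intro w
    have := LinearMap.congr_fun hx w
    exact this
  · rw [hf, hf, hρA]
    show w (ρA g⁻¹ (ρA g (β x y))) = w (β x y)
    rw [← Module.End.mul_apply, ← map_mul, inv_mul_cancel, map_one]
    rfl

/-- with indecomposability: the dimension is one -/
theorem finrank_eq_one {k : Type*} [Field k] {G : Type*} [Group G]
    {V : Type*} [AddCommGroup V] [Module k V]
    [FiniteDimensional k V] (ρ : Representation k G V)
    (hind : ∀ A B : Submodule k V, (∀ g, ∀ v ∈ A, ρ g v ∈ A) → (∀ g, ∀ v ∈ B, ρ g v ∈ B) →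
      IsCompl A B → A = ⊥ ∨ B = ⊥)
    (h : ∃ (x : V) (y : V →ₗ[k] k), (∀ g, ρ g x = x) ∧ (∀ g v, y (ρ g v) = y v) ∧ y x ≠ 0) :
    finrank k V = 1 := by
  obtain ⟨x, y, hx, hy, hxy⟩ := h
  have hx0 : x ≠ 0 := fun h => hxy (by rw [h, map_zero])
  have hcompl : IsCompl (Submodule.span k {x}) (LinearMap.ker y) := by
    rw [isCompl_iff, disjoint_iff, codisjoint_iff]
    constructor
    · rw [Submodule.eq_bot_iff]
      intro v hv
      obtain ⟨hv1, hv2⟩ := Submodule.mem_inf.mp hv
      obtain ⟨a, rfl⟩ := Submodule.mem_span_singleton.mp hv1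
      rw [LinearMap.mem_ker, map_smul, smul_eq_mul] at hv2
      rcases mul_eq_zero.mp hv2 with h | h
      · rw [h, zero_smul]
      · exact absurd h hxy
    · rw [eq_top_iff]
      intro v _
      have : v = (y v / y x) • x + (v - (y v / y x) • x) := by abel
      rw [this]
      refine Submodule.add_mem_sup (Submodule.smul_mem _ _ (Submodule.mem_span_singleton_self x)) ?_
      rw [LinearMap.mem_ker, map_sub, map_smul, smul_eq_mul, div_mul_cancel₀ _ hxy, sub_self]
  rcases hind _ _ (fun g v hv => by
      obtain ⟨a, rfl⟩ := Submodule.mem_span_singleton.mp hv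
      rw [map_smul, hx g]
      exact Submodule.smul_mem _ _ (Submodule.mem_span_singleton_self x))
    (fun g v hv => by
      rw [LinearMap.mem_ker] at hv ⊢
      rw [hy, hv]) hcompl with h | h
  · exfalso
    apply hx0
    have := Submodule.mem_span_singleton_self (R := k) x
    rw [h] at this
    exact this
  · rw [h] at hcompl
    have h1 : Submodule.span k {x} = ⊤ := eq_top_of_isCompl_bot hcompl
    rw [← finrank_top, ← h1, finrank_span_singleton hx0]

end Pool.SqSplit
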