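import Pool.Agent.Work.MP_26c40d_sq.Finite

/-!
# The squaring map does not split: specialisation to a finite field
-/

set_option autoImplicit false

namespace Pool.SqSplit

open Module MvPolynomial

/-- finitely many elements of a field of characteristic two satisfy no more integral polynomial
relations than suitable elements of a finite field of characteristic two -/
theorem specialise {κ : Type} [Finite κ] {k : Type*} [Field k] [CharP k 2] (c : κ → k) :
    ∃ (F : Type) (_ : Field F) (_ : Finite F) (_ : CharP F 2) (c' : κ → F),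
      ∀ p : MvPolynomial κ ℤ, aeval c p = 0 → aeval c' p = 0 := by
  classical
  let ev : MvPolynomial κ (ZMod 2) →+* k := eval₂Hom (ZMod.castHom (dvd_refl 2) k) c
  have hker : RingHom.ker ev ≠ ⊤ := by
    rw [Ideal.ne_top_iff_one, RingHom.mem_ker, map_one]
    exact one_ne_zero
  obtain ⟨m, hm, hle⟩ := Ideal.exists_le_maximal (RingHom.ker ev) hker
  let F := MvPolynomial κ (ZMod 2) ⧸ m
  let _ : Field F := Ideal.Quotient.field m
  have hft : Algebra.FiniteType (ZMod 2) F :=
    Algebra.FiniteType.of_surjective (Ideal.Quotient.mkₐ (ZMod 2) m)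
      (Ideal.Quotient.mkₐ_surjective (ZMod 2) m)
  have hfin : Module.Finite (ZMod 2) F := finite_of_finite_type_of_isJacobsonRing (ZMod 2) F
  have hF : Finite F := Module.finite_of_finite (ZMod 2)
  have hch : CharP F 2 := charP_of_injective_algebraMap (algebraMap (ZMod 2) F).injective 2
  refine ⟨F, inferInstance, hF, hch, fun i => Ideal.Quotient.mk m (X i), ?_⟩
  intro p hp
  let q : MvPolynomial κ (ZMod 2) := MvPolynomial.map (Int.castRingHom (ZMod 2)) p
  have h1 : ev q = 0 := by
    have : (ev.comp (MvPolynomial.map (Int.castRingHom (ZMod 2)))) =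
        ((aeval c : MvPolynomial κ ℤ →ₐ[ℤ] k) : MvPolynomial κ ℤ →+* k) := by
      refine MvPolynomial.ringHom_ext ?_ ?_
      · intro r
        simp [ev]
      · intro i
        simp [ev]
    have h2 := congrArg (fun φ : MvPolynomial κ ℤ →+* k => φ p) this
    exact h2.trans hp
  have h3 : q ∈ m := hle (RingHom.mem_ker.mpr h1)
  have h4 : (Ideal.Quotient.mk m) q = 0 := Ideal.Quotient.eq_zero_iff_mem.mpr h3
  have h5 : ((Ideal.Quotient.mk m).comp (MvPolynomial.map (Int.castRingHom (ZMod 2)))) =
      ((aeval (fun i => (Ideal.Quotient.mk m (X i) : F)) : MvPolynomial κ ℤ →ₐ[ℤ] F) :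
        MvPolynomial κ ℤ →+* F) := by
    refine MvPolynomial.ringHom_ext ?_ ?_
    · intro r
      simp
    · intro i
      simp
  have h6 := congrArg (fun φ : MvPolynomial κ ℤ →+* F => φ p) h5
  exact h6.symm.trans h4

/-- the trilinear form with coefficients `b` -/
def tri {ι F : Type*} [Fintype ι] [Field F] (b : ι → ι → ι → F) :
    (ι → F) →ₗ[F] (ι → F) →ₗ[F] (ι → F) →ₗ[F] F :=
  LinearMap.mk₂ F (fun x y =>
    ({ toFun := fun w => ∑ i, ∑ j, ∑ l, b i j l * x i * y j * w l
       map_add' := fun w w' => by
         simp only [Pi.add_apply, mul_add, Finset.sum_add_distrib]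
       map_smul' := fun a w => by
         simp only [Pi.smul_apply, smul_eq_mul, RingHom.id_apply, Finset.mul_sum]
         exact Finset.sum_congr rfl fun i _ => Finset.sum_congr rfl fun j _ =>
           Finset.sum_congr rfl fun l _ => by ring } : (ι → F) →ₗ[F] F))
    (fun x x' y => by
      ext w
      simp only [LinearMap.coe_mk, AddHom.coe_mk, LinearMap.add_apply, Pi.add_apply, mul_add, add_mul,
        Finset.sum_add_distrib])
    (fun a x y => by
      ext w
      simp only [LinearMap.coe_mk, AddHom.coe_mk, LinearMap.smul_apply, Pi.smul_apply, smul_eq_mul,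
        Finset.mul_sum]
      exact Finset.sum_congr rfl fun i _ => Finset.sum_congr rfl fun j _ =>
        Finset.sum_congr rfl fun l _ => by ring)
    (fun x y y' => by
      ext w
      simp only [LinearMap.coe_mk, AddHom.coe_mk, LinearMap.add_apply, Pi.add_apply, mul_add, add_mul,
        Finset.sum_add_distrib])
    (fun a x y => by
      ext w
      simp only [LinearMap.coe_mk, AddHom.coe_mk, LinearMap.smul_apply, Pi.smul_apply, smul_eq_mul,
        Finset.mul_sum]
      exact Finset.sum_congr rfl fun i _ => Finset.sum_congr rfl fun j _ =>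
        Finset.sum_congr rfl fun l _ => by ring)

theorem tri_apply {ι F : Type*} [Fintype ι] [Field F] (b : ι → ι → ι → F) (x y w : ι → F) :
    tri b x y w = ∑ i, ∑ j, ∑ l, b i j l * x i * y j * w l := rfl

/-- the finite case in coordinates -/
theorem matrix_finite {F : Type} [Field F] [Finite F] [CharP F 2] {G ι : Type} [Group G] [Finite G]
    [Fintype ι] [DecidableEq ι] (hG : IsPGroup 2 G) (hodd : Odd (Fintype.card ι))
    (P S : G → Matrix ι ι F) (hP1 : P 1 = 1) (hPm : ∀ g h, P (g * h) = P g * P h)
    (hS1 : S 1 = 1) (hSm : ∀ g h, S (g * h) = S g * S h)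
    (b : ι → ι → ι → F) (hb : ∀ i j l, b i j l = b j i l)
    (hbd : ∀ i l, b i i l = if i = l then 1 else 0)
    (hinv : ∀ g i' j' l', ∑ i, ∑ j, ∑ l, b i j l * P g i i' * P g j j' * S g l l' = b i' j' l') :
    ∃ x y : ι → F, (∀ g, (P g).mulVec x = x) ∧ (∀ g, (P g).transpose.mulVec y = y) ∧
      ∑ i, y i * x i ≠ 0 := by
  classical
  let ρ : Representation F G (ι → F) :=
    { toFun := fun g => Matrix.toLin' (P g)
      map_one' := by rw [hP1, Matrix.toLin'_one]; rfl
      map_mul' := fun g h => by rw [hPm, Matrix.toLin'_mul]; rfl }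
  let σ : Representation F G (ι → F) :=
    { toFun := fun g => Matrix.toLin' (S g)
      map_one' := by rw [hS1, Matrix.toLin'_one]; rfl
      map_mul' := fun g h => by rw [hSm, Matrix.toLin'_mul]; rfl }
  have hρ : ∀ g x, ρ g x = (P g).mulVec x := fun g x => Matrix.toLin'_apply (P g) x
  have hσ : ∀ g x, σ g x = (S g).mulVec x := fun g x => Matrix.toLin'_apply (S g) x
  have h2 : ∀ m : F, m + m = 0 := fun m => CharTwo.add_self_eq_zero m
  have hs : ∀ x y, tri b x y = tri b y x := by
    intro x y
    refine LinearMap.ext fun w => ?_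
    rw [tri_apply, tri_apply, Finset.sum_comm]
    refine Finset.sum_congr rfl fun j _ => Finset.sum_congr rfl fun i _ =>
      Finset.sum_congr rfl fun l _ => ?_
    rw [hb i j l]
    ring
  have hne : ∀ x, tri b x x = 0 → x = 0 := by
    intro x hx
    funext l
    have h3 := LinearMap.congr_fun hx (Pi.single l 1)
    rw [tri_apply, LinearMap.zero_apply] at h3
    have h4 : ∀ i j, ∑ l', b i j l' * x i * x j * (Pi.single l (1 : F) : ι → F) l' =
        b i j l * x i * x j := by
      intro i j
      rw [Finset.sum_eq_single l]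
      · rw [Pi.single_eq_same, mul_one]
      · intro l' _ hl'
        rw [Pi.single_eq_of_ne hl', mul_zero]
      · intro h
        exact absurd (Finset.mem_univ l) h
    simp only [h4] at h3
    rw [sum_symm h2 (fun i j => b i j l * x i * x j) (fun i j => by
      show b i j l * x i * x j = b j i l * x j * x i
      rw [hb i j l]; ring)] at h3
    have h5 : ∑ i, b i i l * x i * x i = x l * x l := by
      rw [Finset.sum_eq_single l]
      · rw [hbd, if_pos rfl, one_mul]
      · intro i _ hi
        rw [hbd, if_neg hi, zero_mul, zero_mul]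
      · intro h
        exact absurd (Finset.mem_univ l) h
    rw [h5] at h3
    exact mul_self_eq_zero.mp h3
  have hinv' : ∀ g x y w, tri b (ρ g x) (ρ g y) (σ g w) = tri b x y w := by
    intro g x y w
    rw [hρ, hρ, hσ, tri_apply, tri_apply]
    have h6 : ∀ i j l, b i j l * (P g).mulVec x i * (P g).mulVec y j * (S g).mulVec w l =
        ∑ i', ∑ j', ∑ l', b i j l * P g i i' * P g j j' * S g l l' * (x i' * y j' * w l') := by
      intro i j l
      simp only [Matrix.mulVec, dotProduct]
      rw [mul_assoc, mul_assoc, Finset.sum_mul_sum, Finset.sum_mul, Finset.mul_sum]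
      refine Finset.sum_congr rfl fun i' _ => ?_
      rw [Finset.mul_sum, Finset.mul_sum]
      refine Finset.sum_congr rfl fun j' _ => ?_
      rw [Finset.mul_sum, Finset.mul_sum]
      refine Finset.sum_congr rfl fun l' _ => ?_
      ring
    simp only [h6]
    have h7 : ∀ (c : ι → ι → ι → ι → ι → ι → F),
        ∑ i, ∑ j, ∑ l, ∑ i', ∑ j', ∑ l', c i j l i' j' l' =
        ∑ i', ∑ j', ∑ l', ∑ i, ∑ j, ∑ l, c i j l i' j' l' := by
      intro c
      have e1 : ∀ (d : (ι × ι × ι) → (ι × ι × ι) → F), ∑ p, ∑ q, d p q = ∑ q, ∑ p, d p q :=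
        fun d => Finset.sum_comm
      have e2 := e1 (fun p q => c p.1 p.2.1 p.2.2 q.1 q.2.1 q.2.2)
      simp only [Fintype.sum_prod_type] at e2
      exact e2
    rw [h7]
    refine Finset.sum_congr rfl fun i' _ => Finset.sum_congr rfl fun j' _ =>
      Finset.sum_congr rfl fun l' _ => ?_
    simp only [← Finset.sum_mul]
    rw [hinv]
    ring
  obtain ⟨w, hw1, hw2⟩ := exists_fixed hG ρ σ rfl (tri b) hs hne hinv'
  -- the form
  let B : (ι → F) →ₗ[F] (ι → F) →ₗ[F] F := (tri b).compr₂ (Module.Dual.eval F (ι → F) w)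
  have hB : ∀ x y, B x y = tri b x y w := fun x y => rfl
  have hperf : PerfectRing F 2 := inferInstance
  obtain ⟨x, y, hx, hy, hxy⟩ := summand_of_form ρ (by rw [Module.finrank_fintype_fun_eq_card]; exact hodd)
    B (fun x y => by rw [hB, hB, hs]) (fun g x y => by
      rw [hB, hB]
      have := hinv' g x y w
      rw [hw1 g] at this
      exact this) (fun x hx => hw2 x hx)
  refine ⟨x, fun i => y (Pi.single i 1), fun g => by rw [← hρ]; exact hx g, ?_, ?_⟩
  · intro g
    funext i
    simp only [Matrix.mulVec, dotProduct, Matrix.transpose_apply]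
    have h8 := hy g (Pi.single i 1)
    rw [← h8, hρ]
    have h9 : (P g).mulVec (Pi.single i 1) = ∑ j, P g j i • (Pi.single j (1 : F) : ι → F) := by
      funext l
      simp [Matrix.mulVec, dotProduct, Pi.single_apply]
    rw [h9, map_sum]
    exact Finset.sum_congr rfl fun j _ => by rw [map_smul, smul_eq_mul]
  · have h10 : x = ∑ i, x i • (Pi.single i (1 : F) : ι → F) := by
      funext l
      simp [Pi.single_apply]
    rw [h10, map_sum] at hxy
    intro h0
    apply hxy
    rw [← h0]
    exact Finset.sum_congr rfl fun i _ => by rw [map_smul, smul_eq_mul, mul_comm]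

end Pool.SqSplit
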