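import Pool.Agent.Work.MP_26c40d_sq.Spec

/-!
# The squaring map does not split: transfer from finite fields to all fields
-/

set_option autoImplicit false

namespace Pool.SqSplit

open Module MvPolynomial

/-- a certificate for the common fixed space of finitely many matrices -/
theorem certificate {k : Type*} [Field k] {G ι : Type*} [Fintype G] [Fintype ι] [DecidableEq ι]
    (T : G → Matrix ι ι k) :
    ∃ (E : Matrix ι ι k) (A : G → Matrix ι ι k), (∀ g, T g * E = E) ∧
      E + ∑ g, A g * (T g - 1) = 1 := by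
  classical
  -- the map `x ↦ (T g x - x)_g`
  let Φ : (ι → k) →ₗ[k] (G → ι → k) := LinearMap.pi fun g => Matrix.toLin' (T g - 1)
  have hΦ : ∀ x g, Φ x g = (T g - 1).mulVec x := fun x g => Matrix.toLin'_apply _ _
  obtain ⟨π, hπ⟩ := LinearMap.exists_leftInverse_of_injective
    (LinearMap.ker Φ).subtype (Submodule.ker_subtype _)
  let E' : (ι → k) →ₗ[k] (ι → k) := (LinearMap.ker Φ).subtype ∘ₗ π
  have hE1 : ∀ x, Φ (E' x) = 0 := fun x => LinearMap.mem_ker.mp (π x).2
  have hE2 : ∀ x, Φ x = 0 → E' x = x := by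
    intro x hx
    have h := LinearMap.congr_fun hπ ⟨x, LinearMap.mem_ker.mpr hx⟩
    exact congrArg Subtype.val h
  -- factorisation
  have hsurj : Function.Surjective Φ.rangeRestrict := LinearMap.surjective_rangeRestrict Φ
  obtain ⟨s, hs⟩ := LinearMap.exists_rightInverse_of_surjective Φ.rangeRestrict
    (LinearMap.range_eq_top.mpr hsurj)
  let A0 : LinearMap.range Φ →ₗ[k] (ι → k) := (LinearMap.id - E') ∘ₗ s
  obtain ⟨A1, hA1⟩ := LinearMap.exists_extend A0
  have hA : ∀ x, A1 (Φ x) = x - E' x := by
    intro x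
    have h1 : A1 (Φ x) = A0 ⟨Φ x, LinearMap.mem_range_self Φ x⟩ := by
      rw [← hA1]
      rfl
    rw [h1]
    show (s ⟨Φ x, LinearMap.mem_range_self Φ x⟩) - E' (s ⟨Φ x, LinearMap.mem_range_self Φ x⟩) =
      x - E' x
    have h2 := LinearMap.congr_fun hs ⟨Φ x, LinearMap.mem_range_self Φ x⟩
    have h3 : Φ (s ⟨Φ x, LinearMap.mem_range_self Φ x⟩) = Φ x := congrArg Subtype.val h2
    have h4 : E' (s ⟨Φ x, LinearMap.mem_range_self Φ x⟩ - x) =
        s ⟨Φ x, LinearMap.mem_range_self Φ x⟩ - x := by
      apply hE2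
      rw [map_sub, h3, sub_self]
    rw [map_sub] at h4
    have h5 : E' (s ⟨Φ x, LinearMap.mem_range_self Φ x⟩) =
        s ⟨Φ x, LinearMap.mem_range_self Φ x⟩ - x + E' x := by
      rw [← h4]
      abel
    rw [h5]
    abel
  refine ⟨LinearMap.toMatrix' E',
    fun g => LinearMap.toMatrix' (A1 ∘ₗ LinearMap.single k (fun _ : G => ι → k) g), ?_, ?_⟩
  · intro g
    have h6 : Matrix.toLin' (T g - 1) ∘ₗ E' = 0 := by
      refine LinearMap.ext fun x => ?_
      have := congrFun (hE1 x) g
      exact this
    have h7 : (T g - 1) * LinearMap.toMatrix' E' = 0 := by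
      have h8 := congrArg LinearMap.toMatrix' h6
      rw [LinearMap.toMatrix'_comp, LinearMap.toMatrix'_toLin', map_zero] at h8
      exact h8
    rw [sub_mul, one_mul, sub_eq_zero] at h7
    exact h7
  · have h9 : E' + ∑ g, (A1 ∘ₗ LinearMap.single k (fun _ : G => ι → k) g) ∘ₗ
        Matrix.toLin' (T g - 1) = LinearMap.id := by
      refine LinearMap.ext fun x => ?_
      rw [LinearMap.add_apply, LinearMap.sum_apply, LinearMap.id_apply]
      have h10 : ∑ g, ((A1 ∘ₗ LinearMap.single k (fun _ : G => ι → k) g) ∘ₗ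
          Matrix.toLin' (T g - 1)) x = A1 (Φ x) := by
        have h11 : Φ x = ∑ g, LinearMap.single k (fun _ : G => ι → k) g (Φ x g) := by
          exact (LinearMap.sum_single_apply (fun _ : G => ι → k) (Φ x)).symm
        conv_rhs => rw [h11]
        rw [map_sum]
        rfl
      rw [h10, hA]
      abel
    have h12 := congrArg LinearMap.toMatrix' h9
    rw [map_add, map_sum, LinearMap.toMatrix'_id] at h12
    refine Eq.trans ?_ h12
    congr 1
    refine Finset.sum_congr rfl fun g _ => ?_
    rw [LinearMap.toMatrix'_comp, LinearMap.toMatrix'_toLin']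

/-- index type of the coefficients -/
abbrev Var (G ι : Type) : Type := (Fin 4 × G × ι × ι) ⊕ ((ι × ι × ι) ⊕ (Fin 2 × ι × ι))

/-- all coefficients as one family -/
def coef {G ι : Type} {k : Type*} (P S A A' : G → Matrix ι ι k) (b : ι → ι → ι → k)
    (E E' : Matrix ι ι k) : Var G ι → k
  | Sum.inl (0, g, i, j) => P g i j
  | Sum.inl (1, g, i, j) => S g i j
  | Sum.inl (2, g, i, j) => A g i j
  | Sum.inl (3, g, i, j) => A' g i j
  | Sum.inr (Sum.inl (i, j, l)) => b i j l
  | Sum.inr (Sum.inr (0, i, j)) => E i j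
  | Sum.inr (Sum.inr (1, i, j)) => E' i j

/-- the main statement in coordinates, for every field of characteristic two -/
theorem matrix_field {k : Type*} [Field k] [CharP k 2] {G ι : Type} [Group G] [Finite G]
    [Fintype ι] [DecidableEq ι] (hG : IsPGroup 2 G) (hodd : Odd (Fintype.card ι))
    (P S : G → Matrix ι ι k) (hP1 : P 1 = 1) (hPm : ∀ g h, P (g * h) = P g * P h)
    (hS1 : S 1 = 1) (hSm : ∀ g h, S (g * h) = S g * S h)
    (b : ι → ι → ι → k) (hb : ∀ i j l, b i j l = b j i l)
    (hbd : ∀ i l, b i i l = if i = l then 1 else 0)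
    (hinv : ∀ g i' j' l', ∑ i, ∑ j, ∑ l, b i j l * P g i i' * P g j j' * S g l l' = b i' j' l') :
    ∃ x y : ι → k, (∀ g, (P g).mulVec x = x) ∧ (∀ g, (P g).transpose.mulVec y = y) ∧
      ∑ i, y i * x i ≠ 0 := by
  classical
  have : Fintype G := Fintype.ofFinite G
  by_contra hcon
  push Not at hcon
  obtain ⟨E, A, hE, hA⟩ := certificate P
  obtain ⟨E', A', hE', hA'⟩ := certificate fun g => (P g).transpose
  -- the pairing of the columns of E' and E vanishes
  have hEE : ∀ i j, ∑ l, E' l i * E l j = 0 := by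
    intro i j
    refine hcon (fun l => E l j) (fun l => E' l i) (fun g => ?_) (fun g => ?_)
    · funext l
      exact congrFun (congrFun (hE g) l) j
    · funext l
      exact congrFun (congrFun (hE' g) l) i
  obtain ⟨F, _, _, _, c, hc⟩ := specialise (coef P S A A' b E E')
  -- the specialised data
  let vP : G → ι → ι → MvPolynomial (Var G ι) ℤ := fun g i j => X (Sum.inl (0, g, i, j))
  let vS : G → ι → ι → MvPolynomial (Var G ι) ℤ := fun g i j => X (Sum.inl (1, g, i, j))
  let vA : G → ι → ι → MvPolynomial (Var G ι) ℤ := fun g i j => X (Sum.inl (2, g, i, j))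
  let vA' : G → ι → ι → MvPolynomial (Var G ι) ℤ := fun g i j => X (Sum.inl (3, g, i, j))
  let vb : ι → ι → ι → MvPolynomial (Var G ι) ℤ := fun i j l => X (Sum.inr (Sum.inl (i, j, l)))
  let vE : ι → ι → MvPolynomial (Var G ι) ℤ := fun i j => X (Sum.inr (Sum.inr (0, i, j)))
  let vE' : ι → ι → MvPolynomial (Var G ι) ℤ := fun i j => X (Sum.inr (Sum.inr (1, i, j)))
  have eP : ∀ g i j, aeval (coef P S A A' b E E') (vP g i j) = P g i j := fun g i j =>
    aeval_X _ _
  have eS : ∀ g i j, aeval (coef P S A A' b E E') (vS g i j) = S g i j := fun g i j =>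
    aeval_X _ _
  have eA : ∀ g i j, aeval (coef P S A A' b E E') (vA g i j) = A g i j := fun g i j =>
    aeval_X _ _
  have eA' : ∀ g i j, aeval (coef P S A A' b E E') (vA' g i j) = A' g i j := fun g i j =>
    aeval_X _ _
  have eb : ∀ i j l, aeval (coef P S A A' b E E') (vb i j l) = b i j l := fun i j l =>
    aeval_X _ _
  have eE : ∀ i j, aeval (coef P S A A' b E E') (vE i j) = E i j := fun i j => aeval_X _ _
  have eE' : ∀ i j, aeval (coef P S A A' b E E') (vE' i j) = E' i j := fun i j => aeval_X _ _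
  let P₀ : G → Matrix ι ι F := fun g i j => aeval c (vP g i j)
  let S₀ : G → Matrix ι ι F := fun g i j => aeval c (vS g i j)
  let A₀ : G → Matrix ι ι F := fun g i j => aeval c (vA g i j)
  let A₀' : G → Matrix ι ι F := fun g i j => aeval c (vA' g i j)
  let b₀ : ι → ι → ι → F := fun i j l => aeval c (vb i j l)
  let E₀ : Matrix ι ι F := fun i j => aeval c (vE i j)
  let E₀' : Matrix ι ι F := fun i j => aeval c (vE' i j)
  -- transfer of equalities
  have tr : ∀ p q : MvPolynomial (Var G ι) ℤ, aeval (coef P S A A' b E E') p =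
      aeval (coef P S A A' b E E') q → aeval c p = aeval c q := by
    intro p q h
    have := hc (p - q) (by rw [map_sub, h, sub_self])
    rw [map_sub, sub_eq_zero] at this
    exact this
  have fP1 : P₀ 1 = 1 := by
    ext i j
    have h1 := tr (vP 1 i j) (if i = j then 1 else 0) (by
      rw [eP, hP1, Matrix.one_apply, apply_ite (aeval _), map_one, map_zero])
    rw [apply_ite (aeval c), map_one, map_zero] at h1
    rw [Matrix.one_apply]
    exact h1
  have fS1 : S₀ 1 = 1 := by
    ext i j
    have h1 := tr (vS 1 i j) (if i = j then 1 else 0) (by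
      rw [eS, hS1, Matrix.one_apply, apply_ite (aeval _), map_one, map_zero])
    rw [apply_ite (aeval c), map_one, map_zero] at h1
    rw [Matrix.one_apply]
    exact h1
  have fPm : ∀ g h, P₀ (g * h) = P₀ g * P₀ h := by
    intro g h
    ext i j
    have h1 := tr (vP (g * h) i j) (∑ l, vP g i l * vP h l j) (by
      rw [eP, hPm, Matrix.mul_apply, map_sum]
      exact Finset.sum_congr rfl fun l _ => by rw [map_mul, eP, eP])
    rw [map_sum] at h1
    rw [Matrix.mul_apply]
    refine h1.trans (Finset.sum_congr rfl fun l _ => ?_)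
    rw [map_mul]
  have fSm : ∀ g h, S₀ (g * h) = S₀ g * S₀ h := by
    intro g h
    ext i j
    have h1 := tr (vS (g * h) i j) (∑ l, vS g i l * vS h l j) (by
      rw [eS, hSm, Matrix.mul_apply, map_sum]
      exact Finset.sum_congr rfl fun l _ => by rw [map_mul, eS, eS])
    rw [map_sum] at h1
    rw [Matrix.mul_apply]
    refine h1.trans (Finset.sum_congr rfl fun l _ => ?_)
    rw [map_mul]
  have fb : ∀ i j l, b₀ i j l = b₀ j i l := fun i j l =>
    tr (vb i j l) (vb j i l) (by rw [eb, eb, hb])
  have fbd : ∀ i l, b₀ i i l = if i = l then 1 else 0 := by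
    intro i l
    have h1 := tr (vb i i l) (if i = l then 1 else 0) (by
      rw [eb, hbd, apply_ite (aeval _), map_one, map_zero])
    rw [apply_ite (aeval c), map_one, map_zero] at h1
    exact h1
  have finv : ∀ g i' j' l',
      ∑ i, ∑ j, ∑ l, b₀ i j l * P₀ g i i' * P₀ g j j' * S₀ g l l' = b₀ i' j' l' := by
    intro g i' j' l'
    have h1 := tr (∑ i, ∑ j, ∑ l, vb i j l * vP g i i' * vP g j j' * vS g l l') (vb i' j' l') (by
      rw [eb, ← hinv g i' j' l']
      simp only [map_sum, map_mul, eb, eP, eS])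
    simp only [map_sum, map_mul] at h1
    exact h1
  obtain ⟨x, y, hx, hy, hxy⟩ := matrix_finite hG hodd P₀ S₀ fP1 fPm fS1 fSm b₀ fb fbd finv
  -- the certificates over F
  have gA : E₀ + ∑ g, A₀ g * (P₀ g - 1) = 1 := by
    ext i j
    have h1 := tr (vE i j + ∑ g, ∑ l, vA g i l * (vP g l j - if l = j then 1 else 0))
      (if i = j then 1 else 0) (by
      have h2 := congrFun (congrFun hA i) j
      simp only [Matrix.add_apply, Matrix.sum_apply, Matrix.mul_apply, Matrix.sub_apply,
        Matrix.one_apply] at h2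
      simp only [map_add, map_sum, map_mul, map_sub, eE, eA, eP, apply_ite (aeval _), map_one,
        map_zero]
      exact h2)
    simp only [map_add, map_sum, map_mul, map_sub, apply_ite (aeval c), map_one, map_zero] at h1
    simp only [Matrix.add_apply, Matrix.sum_apply, Matrix.mul_apply, Matrix.sub_apply,
      Matrix.one_apply]
    exact h1
  have gA' : E₀' + ∑ g, A₀' g * ((P₀ g).transpose - 1) = 1 := by
    ext i j
    have h1 := tr (vE' i j + ∑ g, ∑ l, vA' g i l * (vP g j l - if l = j then 1 else 0))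
      (if i = j then 1 else 0) (by
      have h2 := congrFun (congrFun hA' i) j
      simp only [Matrix.add_apply, Matrix.sum_apply, Matrix.mul_apply, Matrix.sub_apply,
        Matrix.one_apply, Matrix.transpose_apply] at h2
      simp only [map_add, map_sum, map_mul, map_sub, eE', eA', eP, apply_ite (aeval _), map_one,
        map_zero]
      exact h2)
    simp only [map_add, map_sum, map_mul, map_sub, apply_ite (aeval c), map_one, map_zero] at h1
    simp only [Matrix.add_apply, Matrix.sum_apply, Matrix.mul_apply, Matrix.sub_apply,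
      Matrix.one_apply, Matrix.transpose_apply]
    exact h1
  have gEE : E₀'.transpose * E₀ = 0 := by
    ext i j
    have h1 := tr (∑ l, vE' l i * vE l j) 0 (by
      rw [map_zero, map_sum, ← hEE i j]
      exact Finset.sum_congr rfl fun l _ => by rw [map_mul, eE', eE])
    simp only [map_sum, map_mul, map_zero] at h1
    simp only [Matrix.mul_apply, Matrix.transpose_apply, Matrix.zero_apply]
    exact h1
  have hx' : E₀.mulVec x = x := by
    have h1 := congrArg (fun M : Matrix ι ι F => M.mulVec x) gA
    simp only [Matrix.add_mulVec, Matrix.sum_mulVec, ← Matrix.mulVec_mulVec, Matrix.sub_mulVec,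
      Matrix.one_mulVec, hx, sub_self, Matrix.mulVec_zero, Finset.sum_const_zero, add_zero] at h1
    exact h1
  have hy' : E₀'.mulVec y = y := by
    have h1 := congrArg (fun M : Matrix ι ι F => M.mulVec y) gA'
    simp only [Matrix.add_mulVec, Matrix.sum_mulVec, ← Matrix.mulVec_mulVec, Matrix.sub_mulVec,
      Matrix.one_mulVec, hy, sub_self, Matrix.mulVec_zero, Finset.sum_const_zero, add_zero] at h1
    exact h1
  apply hxy
  have h1 : ∑ i, y i * x i = dotProduct y x := rfl
  rw [h1]
  conv_lhs => rw [← hx', ← hy']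
  rw [Matrix.dotProduct_mulVec, ← Matrix.mulVec_transpose, Matrix.mulVec_mulVec]
  have h2 : E₀.transpose * E₀' = 0 := by
    have h3 := congrArg Matrix.transpose gEE
    rw [Matrix.transpose_mul, Matrix.transpose_transpose, Matrix.transpose_zero] at h3
    exact h3
  rw [h2, Matrix.zero_mulVec, zero_dotProduct]

end Pool.SqSplit
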